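import Mathlib

/-!
# Fermi-Amaldi TFW theory of an atom (problem MP_8f8f86_mp): definitions

Everything follows the problem file.  `ℝ³` is `EuclideanSpace ℝ (Fin 3)` with Lebesgue measure.
-/

open MeasureTheory
open scoped ContDiff

namespace Pool.Agent.Work.MP_8f8f86_mp

/-- Euclidean three-space. -/
abbrev E3 : Type := EuclideanSpace ℝ (Fin 3)

/-- `g` is a weak gradient of `f` on `ℝ³`: both functions are locally integrable and
`∫ f(x) (D φ(x) v) dx = - ∫ ⟨g(x), v⟩ φ(x) dx` for all `φ ∈ C_c^∞(ℝ³)` and all `v ∈ ℝ³`. -/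
def IsWeakGradient (f : E3 → ℝ) (g : E3 → E3) : Prop :=
  LocallyIntegrable f ∧ LocallyIntegrable g ∧
    ∀ φ : E3 → ℝ, ContDiff ℝ ∞ φ → HasCompactSupport φ → ∀ v : E3,
      ∫ x, f x * fderiv ℝ φ x v = - ∫ x, inner ℝ (g x) v * φ x

/-- A density: a (measurable) function `ρ ≥ 0` on `ℝ³` with `ρ ∈ L¹ ∩ L^{5/3}` and
`∇ρ^{1/2} ∈ L²`; here `g` is the weak gradient of `ρ^{1/2}` (it is unique almost everywhere). -/
structure IsDensity (ρ : E3 → ℝ) (g : E3 → E3) : Prop where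
  measurable : Measurable ρ
  nonneg : ∀ x, 0 ≤ ρ x
  integrable : Integrable ρ
  integrable_rpow : Integrable (fun x => ρ x ^ (5 / 3 : ℝ))
  isWeakGradient : IsWeakGradient (fun x => √(ρ x)) g
  memLp : MemLp g 2

/-- `D(ρ,ρ) = (1/2) ∬ ρ(x) ρ(y) / |x-y| dx dy`. -/
noncomputable def coulomb (ρ : E3 → ℝ) : ℝ :=
  (1 / 2) * ∫ x, ∫ y, ρ x * ρ y / ‖x - y‖

/-- The constant `A = 0.1859`. -/
noncomputable def A : ℝ := 0.1859

/-- The constant `γ = (3π²)^{2/3}`. -/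
noncomputable def γ : ℝ := (3 * Real.pi ^ 2) ^ (2 / 3 : ℝ)

/-- The Fermi-Amaldi TFW functional of the atom with nuclear charge `z` and `N` electrons,
`A ∫ |∇ρ^{1/2}|² + (3/5) γ ∫ ρ^{5/3} - ∫ (z/|x|) ρ + (1 - 1/N) D(ρ,ρ)`,
where `g` is the weak gradient of `ρ^{1/2}` (for `N = 1` the repulsion term vanishes). -/
noncomputable def energy (z N : ℕ) (ρ : E3 → ℝ) (g : E3 → E3) : ℝ :=
  A * (∫ x, ‖g x‖ ^ 2) + 3 / 5 * γ * (∫ x, ρ x ^ (5 / 3 : ℝ)) - (∫ x, z / ‖x‖ * ρ x)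
    + (1 - 1 / (N : ℝ)) * coulomb ρ

/-- The ground-state energy `E(N) = inf {ℰ_N(ρ) : ∫ ρ = N}` of the atom with nuclear
charge `z`. -/
noncomputable def groundEnergy (z N : ℕ) : ℝ :=
  sInf {e : ℝ | ∃ (ρ : E3 → ℝ) (g : E3 → E3),
    IsDensity ρ g ∧ ∫ x, ρ x = N ∧ e = energy z N ρ g}

end Pool.Agent.Work.MP_8f8f86_mp
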