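import Pool.Agent.Work.MP_8f8f86_mp.Trial

open MeasureTheory Metric Set Filter Topology
open scoped ENNReal Real ContDiff

namespace Pool.Agent.Work.MP_8f8f86_mp

variable {ρ : E3 → ℝ} {g : E3 → E3}

/-- The constant `(2/5) γ^{-3/2} ∫ v⁵`. -/
noncomputable def K2 : ℝ := 2 / 5 * (3 * π ^ 2)⁻¹ * (π * (11 / 8) ^ 5 / (3 * (2 / 3) ^ 2))

/-- The main estimate for the attraction. -/
lemma attraction_le (h : IsDensity ρ g) :
    ∫ x, 1 / ‖x‖ * ρ x ≤ A * (∫ x, ‖g x‖ ^ 2) + 3 / 5 * γ * (∫ x, ρ x ^ (5 / 3 : ℝ)) + K2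
      + 1 / 2 * ∫ x, ρ x * ((5 / 2) / (‖x‖ + 7 / 2)) := by
  have hw' : Pool.Agent.Work.MP_8b3296_mp.IsWeakGradient (fun x => √(ρ x)) g := h.isWeakGradient
  have hne : ∀ᵐ x : E3, x ≠ 0 := by
    rw [ae_iff]; simp
  have hsm : Measurable (fun x => √(ρ x)) := h.measurable.sqrt
  have hL2 : MemLp (fun x => √(ρ x)) 2 := by
    rw [memLp_two_iff_integrable_sq hsm.aestronglyMeasurable]
    refine h.integrable.congr (Eventually.of_forall fun x => ?_)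
    exact (Real.sq_sqrt (h.nonneg x)).symm
  obtain ⟨k1, k2⟩ := integral_vv_le (b := 7 / 2) (by norm_num) hsm hL2 h.isWeakGradient h.memLp
  have hsq : ∀ x, √(ρ x) ^ 2 = ρ x := fun x => Real.sq_sqrt (h.nonneg x)
  simp only [hsq] at k1 k2
  obtain ⟨v1, v2⟩ := integral_v5 (β := 11 / 8) (d := 2 / 3) (by norm_num) (by norm_num)
  obtain ⟨c1, -⟩ := coulomb_ge h (m := 5 / 2) (c := 7 / 2) (by norm_num) (by norm_num)
  have i0 : Integrable (fun x => 1 / ‖x‖ * ρ x) := by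
    have := Pool.Agent.Work.MP_8b3296_mp.integrable_coulomb h.measurable h.nonneg h.integrable hw' h.memLp 0
    refine this.congr (Eventually.of_forall fun x => ?_)
    simp only [sub_zero]; ring
  have i1 : Integrable (fun x => A * (ρ x * vv (7 / 2) x)) := k1.const_mul A
  have i2 : Integrable (fun x => 3 / 5 * γ * ρ x ^ (5 / 3 : ℝ)) := h.integrable_rpow.const_mul _
  have i3 : Integrable (fun x : E3 => 2 / 5 * (3 * π ^ 2)⁻¹ * ((11 / 8) / (‖x‖ + 2 / 3)) ^ 5) :=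
    v1.const_mul _
  have i4 : Integrable (fun x => 1 / 2 * (ρ x * ((5 / 2) / (‖x‖ + 7 / 2)))) := c1.const_mul _
  have i12 : Integrable (fun x => A * (ρ x * vv (7 / 2) x) + 3 / 5 * γ * ρ x ^ (5 / 3 : ℝ)) := i1.add i2
  have i123 : Integrable (fun x => A * (ρ x * vv (7 / 2) x) + 3 / 5 * γ * ρ x ^ (5 / 3 : ℝ)
      + 2 / 5 * (3 * π ^ 2)⁻¹ * ((11 / 8) / (‖x‖ + 2 / 3)) ^ 5) := i12.add i3
  have hle : ∫ x, 1 / ‖x‖ * ρ x ≤ ∫ x, (A * (ρ x * vv (7 / 2) x) + 3 / 5 * γ * ρ x ^ (5 / 3 : ℝ)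
      + 2 / 5 * (3 * π ^ 2)⁻¹ * ((11 / 8) / (‖x‖ + 2 / 3)) ^ 5
      + 1 / 2 * (ρ x * ((5 / 2) / (‖x‖ + 7 / 2)))) := by
    apply integral_mono_ae i0 (i123.add i4)
    filter_upwards [hne] with x hx
    have hr0 : 0 < ‖x‖ := norm_pos_iff.2 hx
    have p1 := pointwise hr0
    have p2 := young (h.nonneg x) (v := (11 / 8) / (‖x‖ + 2 / 3)) (by positivity)
    have hA : A = 0.1859 := rfl
    have p3 := mul_le_mul_of_nonneg_right p1 (h.nonneg x)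
    unfold vv
    rw [hA]
    simp only [Pi.add_apply]
    nlinarith [p2, p3]
  rw [integral_add i123 i4, integral_add i12 i3, integral_add i1 i2, integral_const_mul,
    integral_const_mul, integral_const_mul, integral_const_mul, v2] at hle
  have hA0 : 0 ≤ A := by unfold A; norm_num
  have := mul_le_mul_of_nonneg_left k2 hA0
  unfold K2
  linarith

lemma K2_nonneg : 0 ≤ K2 := by unfold K2; positivity

lemma K2_le : K2 ≤ 0.157 := by
  have hpi := Real.pi_gt_d2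
  have h0 := Real.pi_pos
  have e : K2 = (2 / 5 * (1 / 3) * ((11 / 8) ^ 5 / (3 * (2 / 3) ^ 2))) / π := by
    unfold K2
    field_simp
  rw [e, div_le_iff₀ h0]
  norm_num at hpi ⊢
  linarith

/-- Lower bound for `z = 1` and `N ≥ 2`. -/
lemma energy_ge {N : ℕ} (hN : 2 ≤ N) (h : IsDensity ρ g) : -0.306 ≤ energy 1 N ρ g := by
  have h1 := attraction_le h
  obtain ⟨-, h2⟩ := coulomb_ge h (m := 5 / 2) (c := 7 / 2) (by norm_num) (by norm_num)
  obtain ⟨h3, -⟩ := II_density h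
  have h4 := K2_le
  have hN' : (2 : ℝ) ≤ N := by exact_mod_cast hN
  have h5 : (1 / 2 : ℝ) ≤ 1 - 1 / (N : ℝ) := by
    have : 1 / (N : ℝ) ≤ 1 / 2 := one_div_le_one_div_of_le (by norm_num) hN'
    linarith
  have h6 : 1 / 2 * coulomb ρ ≤ (1 - 1 / (N : ℝ)) * coulomb ρ := mul_le_mul_of_nonneg_right h5 h3
  unfold energy
  simp only [Nat.cast_one]
  have e : ((5 / 2 : ℝ) ^ 2 / (6 * (7 / 2))) = 25 / 84 := by norm_num
  rw [e] at h2
  have h7 : (0.157 : ℝ) = 157 / 1000 := by norm_num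
  have h8 : (-0.306 : ℝ) = -(306 / 1000) := by norm_num
  rw [h7] at h4
  rw [h8]
  linarith

/-- For `N = 1` the energy is bounded below. -/
lemma energy_one_ge (h : IsDensity ρ g) (hm : ∫ x, ρ x = (1 : ℕ)) : -10 ≤ energy 1 1 ρ g := by
  have h1 := attraction_le h
  have h4 := K2_le
  have h5 : ∫ x, ρ x * ((5 / 2) / (‖x‖ + 7 / 2)) ≤ 5 / 7 := by
    obtain ⟨c1, -⟩ := coulomb_ge h (m := 5 / 2) (c := 7 / 2) (by norm_num) (by norm_num)
    calc ∫ x, ρ x * ((5 / 2) / (‖x‖ + 7 / 2)) ≤ ∫ x, ρ x * (5 / 7) := by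
          apply integral_mono c1 (h.integrable.mul_const _)
          intro x
          apply mul_le_mul_of_nonneg_left _ (h.nonneg x)
          rw [div_le_iff₀ (by positivity)]
          linarith [norm_nonneg x]
      _ = 5 / 7 := by rw [integral_mul_const, hm]; simp
  unfold energy
  have h7 : (0.157 : ℝ) = 157 / 1000 := by norm_num
  rw [h7] at h4
  have h8 : (1 - 1 / ((1 : ℕ) : ℝ)) * coulomb ρ = 0 := by norm_num
  rw [h8]
  simp only [Nat.cast_one]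
  linarith

lemma exists_density {lam : ℝ} (hlam : 0 ≤ lam) : ∃ (ρ : E3 → ℝ) (g : E3 → E3), IsDensity ρ g ∧
    ∫ x, ρ x = lam := by
  obtain ⟨h1, h2, -, -, -⟩ := trial (κ := √(lam / π)) (a := 1) (Real.sqrt_nonneg _) one_pos
  refine ⟨_, _, h1, ?_⟩
  rw [h2, Real.sq_sqrt (by positivity)]
  field_simp

/-- `E(N) ≥ -0.306` for `z = 1`, `N ≥ 2`. -/
lemma groundEnergy_ge {N : ℕ} (hN : 2 ≤ N) : -0.306 ≤ groundEnergy 1 N := by
  obtain ⟨ρ, g, h, hm⟩ := exists_density (lam := N) (by positivity)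
  refine le_csInf (show Set.Nonempty _ from ⟨energy 1 N ρ g, ρ, g, h, hm, rfl⟩) ?_
  rintro e ⟨ρ, g, h, -, rfl⟩
  exact energy_ge hN h

/-- `E(1) ≤ -0.32` for `z = 1`. -/
lemma groundEnergy_one_le : groundEnergy 1 1 ≤ -0.32 := by
  have hbdd : BddBelow {e : ℝ | ∃ (ρ : E3 → ℝ) (g : E3 → E3),
      IsDensity ρ g ∧ ∫ x, ρ x = (1 : ℕ) ∧ e = energy 1 1 ρ g} := by
    refine ⟨-10, ?_⟩
    rintro e ⟨ρ, g, h, hm, rfl⟩
    exact energy_one_ge h hm
  set a : ℝ := 13 / 20 with ha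
  have ha0 : 0 < a := by norm_num [ha]
  set κ : ℝ := √(a ^ 3 / π) with hκ
  have hκ2 : κ ^ 2 = a ^ 3 / π := Real.sq_sqrt (by positivity)
  have hmass : κ ^ 2 * (π / a ^ 3) = 1 := by
    rw [hκ2]; field_simp
  obtain ⟨h1, h2, h3, h4, h5⟩ := trial (κ := κ) (a := a) (Real.sqrt_nonneg _) ha0
  rw [hmass] at h2 h3
  refine (csInf_le hbdd ⟨_, _, h1, by rw [h2]; simp, rfl⟩).trans ?_
  unfold energy
  simp only [Nat.cast_one, h3, h4, h5]
  have e5 : κ ^ 2 * (π / a ^ 2) = a := by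
    rw [hκ2]; field_simp
  -- the kinetic TF term
  have e4 : γ * ((κ ^ 2) ^ (5 / 3 : ℝ) * (27 / 125 * (π / a ^ 3))) = 27 / 125 * (3 * π * a ^ 3) ^ (2 / 3 : ℝ) := by
    have hk0 : 0 < κ ^ 2 := by rw [hκ2]; positivity
    have s1 : (κ ^ 2) ^ (5 / 3 : ℝ) = (κ ^ 2) ^ (2 / 3 : ℝ) * κ ^ 2 := by
      rw [show (5 / 3 : ℝ) = 2 / 3 + 1 by norm_num, Real.rpow_add hk0, Real.rpow_one]
    have s2 : γ * (κ ^ 2) ^ (2 / 3 : ℝ) = (3 * π * a ^ 3) ^ (2 / 3 : ℝ) := by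
      unfold γ
      rw [← Real.mul_rpow (by positivity) (by positivity), hκ2]
      congr 1
      field_simp
    calc γ * ((κ ^ 2) ^ (5 / 3 : ℝ) * (27 / 125 * (π / a ^ 3)))
        = 27 / 125 * (γ * (κ ^ 2) ^ (2 / 3 : ℝ)) * (κ ^ 2 * (π / a ^ 3)) := by rw [s1]; ring
      _ = _ := by rw [s2, hmass, mul_one]
  have haux : ∀ x : ℝ, 0 ≤ x → x ^ (2 / 3 : ℝ) = (x ^ 2) ^ (1 / 3 : ℝ) := by
    intro x hx0
    rw [← Real.rpow_natCast, ← Real.rpow_mul hx0]; norm_num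
  have e6 : (3 * π * a ^ 3) ^ (2 / 3 : ℝ) ≤ 1.9 := by
    have hx0 : 0 ≤ 3 * π * a ^ 3 := by positivity
    have hx : (3 * π * a ^ 3) ^ 2 ≤ 1.9 ^ 3 := by
      have hpi := Real.pi_lt_d2
      have hpi0 := Real.pi_pos
      have : 3 * π * a ^ 3 ≤ 2.6 := by
        rw [ha]; norm_num at hpi ⊢; linarith
      calc (3 * π * a ^ 3) ^ 2 ≤ 2.6 ^ 2 := by gcongr
        _ ≤ 1.9 ^ 3 := by norm_num
    calc (3 * π * a ^ 3) ^ (2 / 3 : ℝ) = ((3 * π * a ^ 3) ^ 2) ^ (1 / 3 : ℝ) := haux _ hx0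
      _ ≤ (1.9 ^ 3) ^ (1 / 3 : ℝ) := Real.rpow_le_rpow (by positivity) hx (by norm_num)
      _ = 1.9 := by
          rw [← Real.rpow_natCast, ← Real.rpow_mul (by norm_num)]; norm_num
  rw [e5]
  have e7 : 3 / 5 * γ * ((κ ^ 2) ^ (5 / 3 : ℝ) * (27 / 125 * (π / a ^ 3))) ≤ 3 / 5 * (27 / 125 * 1.9) := by
    rw [mul_assoc, e4]
    gcongr
  have hA : A = 0.1859 := rfl
  rw [hA, ha]
  rw [ha] at e7
  norm_num at e7 ⊢
  linarith

/-- The main result. -/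
theorem main : (∀ N : ℕ, 2 ≤ N → groundEnergy 1 1 < groundEnergy 1 N) ∧
    ¬ ∀ z : ℕ, 1 ≤ z → groundEnergy z (z + 1) < groundEnergy z z := by
  have h1 : ∀ N : ℕ, 2 ≤ N → groundEnergy 1 1 < groundEnergy 1 N := by
    intro N hN
    have h1 := groundEnergy_ge hN
    have h2 := groundEnergy_one_le
    norm_num at h1 h2
    linarith
  refine ⟨h1, fun h => ?_⟩
  have h2 := h 1 le_rfl
  have h3 := h1 2 le_rfl
  exact absurd h2 (not_lt.2 h3.le)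

end Pool.Agent.Work.MP_8f8f86_mp
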