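import Pool.Agent.Work.MP_8b3296_mp.Coulomb
import Pool.Agent.Work.MP_8f8f86_mp.Defs

open MeasureTheory Metric Set Filter Topology
open scoped ContDiff Convolution ENNReal

namespace Pool.Agent.Work.MP_8f8f86_mp

open Pool.Agent.Work.MP_8b3296_mp (abs_integral_mul_le hasFDerivAt_corr)

/-- The correlation `∫ f (φ(·-h) - φ)` is bounded by `‖⟨g,h⟩‖₂ ‖φ‖₂`. -/
lemma abs_integral_sub_le_dir {f : E3 → ℝ} {g : E3 → E3} (hw : IsWeakGradient f g)
    (hg : MemLp g 2)
    {φ : E3 → ℝ} (hφ : ContDiff ℝ ∞ φ) (hc : HasCompactSupport φ) (h : E3) :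
    |(∫ x, f x * φ (x - h)) - ∫ x, f x * φ x| ≤
      √(∫ x, inner ℝ (g x) h ^ 2) * √(∫ x, φ x ^ 2) := by
  set F : E3 → ℝ := fun z => ∫ x, f x * φ (x - z) with hF
  have hmem : ∀ z, MemLp (fun x => φ (x - z)) 2 := fun z =>
    (hφ.continuous.comp (continuous_id.sub continuous_const)).memLp_of_hasCompactSupport
      (hc.comp_homeomorph (Homeomorph.subRight z))
  have hgv : MemLp (fun x => inner ℝ (g x) h) 2 := by
    have := hg.const_inner (𝕜 := ℝ) h
    refine this.congr_norm ?_ ?_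
    · exact (hg.1.inner aestronglyMeasurable_const)
    · filter_upwards with x; rw [real_inner_comm]
  have hder : ∀ t : ℝ, ∃ d : ℝ, HasDerivAt (fun t : ℝ => F (t • h)) d t ∧
      |d| ≤ √(∫ x, inner ℝ (g x) h ^ 2) * √(∫ x, φ x ^ 2) := by
    intro t
    obtain ⟨L, hL, hLv⟩ := hasFDerivAt_corr hw hφ hc (t • h)
    have h1 : HasDerivAt (fun t : ℝ => t • h) ((1 : ℝ) • h) t := (hasDerivAt_id t).smul_const h
    have h2 : HasDerivAt (F ∘ fun t : ℝ => t • h) (L ((1 : ℝ) • h)) t :=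
      HasFDerivAt.comp_hasDerivAt (l := F) (f := fun t : ℝ => t • h) t hL h1
    refine ⟨_, h2, ?_⟩
    rw [one_smul, hLv]
    refine (abs_integral_mul_le hgv (hmem (t • h))).trans (le_of_eq ?_)
    rw [integral_sub_right_eq_self (fun x => φ x ^ 2) (t • h)]
  have := Convex.norm_image_sub_le_of_norm_deriv_le (s := (univ : Set ℝ))
    (f := fun t : ℝ => F (t • h)) (C := √(∫ x, inner ℝ (g x) h ^ 2) * √(∫ x, φ x ^ 2))
    (fun t _ => by obtain ⟨d, hd, -⟩ := hder t; exact hd.differentiableAt)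
    (fun t _ => by obtain ⟨d, hd, hd2⟩ := hder t; rw [hd.deriv]; exact hd2)
    convex_univ (mem_univ (0 : ℝ)) (mem_univ (1 : ℝ))
  simpa [hF, Real.norm_eq_abs] using this

/-- The difference quotient estimate: `∫ |f(x+h) - f(x)|² dx ≤ ∫ ⟨∇f, h⟩²`. -/
lemma integral_translate_sub_sq_le_dir {f : E3 → ℝ} {g : E3 → E3} (hf : MemLp f 2)
    (hw : IsWeakGradient f g) (hg : MemLp g 2) (h : E3) :
    ∫ x, (f (x + h) - f x) ^ 2 ≤ ∫ x, inner ℝ (g x) h ^ 2 := by
  set G := ∫ x, inner ℝ (g x) h ^ 2 with hG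
  have hG0 : 0 ≤ G := integral_nonneg fun x => by positivity
  set δ : E3 → ℝ := fun x => f (x + h) - f x with hδ
  have hfh : MemLp (fun x => f (x + h)) 2 := by
    simpa [Function.comp_def] using hf.comp_measurePreserving (measurePreserving_add_right volume h)
  have hδm : MemLp δ 2 := hfh.sub hf
  set M := √G with hM
  have hM0 : 0 ≤ M := by positivity
  -- the bound against test functions
  have htest : ∀ φ : E3 → ℝ, ContDiff ℝ ∞ φ → HasCompactSupport φ →
      |∫ x, δ x * φ x| ≤ M * √(∫ x, φ x ^ 2) := by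
    intro φ hφ hc
    have hφm : MemLp φ 2 := hφ.continuous.memLp_of_hasCompactSupport hc
    have e1 : ∫ x, δ x * φ x = (∫ x, f x * φ (x - h)) - ∫ x, f x * φ x := by
      have e2 : ∫ x, f x * φ (x - h) = ∫ x, f (x + h) * φ x := by
        rw [← integral_add_right_eq_self (fun x => f x * φ (x - h)) h]
        simp
      rw [e2, ← integral_sub]
      · congr 1; ext x; simp [hδ]; ring
      · exact hfh.integrable_mul hφm
      · exact hf.integrable_mul hφm
    rw [e1]
    exact abs_integral_sub_le_dir hw hg hφ hc h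
  -- pass to `L²`
  have hcl : ∀ u : Lp ℝ 2 (volume : Measure E3), |inner ℝ (hδm.toLp) u| ≤ M * ‖u‖ := by
    intro u
    refine (Lp.dense_hasCompactSupport_contDiff (E := E3) (F := ℝ) (p := 2)
      (μ := (volume : Measure E3)) (by simp)).induction (P := fun u => |inner ℝ (hδm.toLp) u| ≤ M * ‖u‖) ?_ ?_ u
    · rintro u ⟨φ, hu, hc, hφ⟩
      have hφm : MemLp φ 2 := hφ.continuous.memLp_of_hasCompactSupport hc
      have hueq : u = hφm.toLp := by
        apply Lp.ext
        exact hu.trans hφm.coeFn_toLp.symm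
      rw [hueq]
      have e1 : inner ℝ (hδm.toLp) (hφm.toLp) = ∫ x, δ x * φ x := by
        rw [L2.inner_def]
        apply integral_congr_ae
        filter_upwards [hδm.coeFn_toLp, hφm.coeFn_toLp] with x h1 h2
        rw [h1, h2]; simp [mul_comm]
      have e2 : ‖hφm.toLp‖ = √(∫ x, φ x ^ 2) := by
        rw [← Real.sqrt_sq (norm_nonneg _), ← real_inner_self_eq_norm_sq, L2.inner_def]
        congr 1
        apply integral_congr_ae
        filter_upwards [hφm.coeFn_toLp] with x h1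
        rw [h1]; simp [sq]
      rw [e1, e2]
      exact htest φ hφ hc
    · exact isClosed_le (by fun_prop) (by fun_prop)
  have h1 := hcl hδm.toLp
  rw [real_inner_self_eq_norm_sq, abs_of_nonneg (by positivity)] at h1
  have h2 : ‖hδm.toLp‖ ≤ M := by
    by_contra hcon
    push Not at hcon
    nlinarith [norm_nonneg hδm.toLp]
  have h3 : ∫ x, δ x ^ 2 = ‖hδm.toLp‖ ^ 2 := by
    rw [← real_inner_self_eq_norm_sq, L2.inner_def]
    apply integral_congr_ae
    filter_upwards [hδm.coeFn_toLp] with x h1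
    rw [h1]; simp [sq]
  rw [h3]
  calc ‖hδm.toLp‖ ^ 2 ≤ M ^ 2 := by gcongr
    _ = G := by rw [hM, Real.sq_sqrt hG0]

/-- The weight `u(x) = 1 + b|x|`. -/
noncomputable def uu (b : ℝ) (x : E3) : ℝ := 1 + b * ‖x‖

lemma uu_ge {b : ℝ} (hb : 0 ≤ b) (x : E3) : 1 ≤ uu b x := by
  unfold uu; have := norm_nonneg x; nlinarith [mul_nonneg hb this]

lemma uu_pos {b : ℝ} (hb : 0 ≤ b) (x : E3) : 0 < uu b x := lt_of_lt_of_le one_pos (uu_ge hb x)

/-- `q(x,h) = 2 - u(x)/u(x+h) - u(x)/u(x-h)`. -/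
noncomputable def qq (b : ℝ) (x h : E3) : ℝ := 2 - uu b x / uu b (x + h) - uu b x / uu b (x - h)

lemma continuous_uu (b : ℝ) : Continuous (uu b) := by unfold uu; fun_prop

lemma ratio_le {b : ℝ} (hb : 0 ≤ b) (x h : E3) : uu b x / uu b (x + h) ≤ 1 + b * ‖h‖ := by
  rw [div_le_iff₀ (uu_pos hb _)]
  have h1 : ‖x‖ ≤ ‖x + h‖ + ‖h‖ := by
    calc ‖x‖ = ‖(x + h) - h‖ := by simp
      _ ≤ _ := norm_sub_le _ _
  have h2 := uu_ge hb (x + h)
  have h3 : 0 ≤ b * ‖h‖ := by positivity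
  calc uu b x = 1 + b * ‖x‖ := rfl
    _ ≤ 1 + b * (‖x + h‖ + ‖h‖) := by gcongr
    _ = uu b (x + h) + b * ‖h‖ * 1 := by unfold uu; ring
    _ ≤ uu b (x + h) + b * ‖h‖ * uu b (x + h) := by gcongr
    _ = _ := by ring

lemma ratio_nonneg {b : ℝ} (hb : 0 ≤ b) (x h : E3) : 0 ≤ uu b x / uu b (x + h) :=
  div_nonneg (uu_pos hb _).le (uu_pos hb _).le

lemma continuous_ratio {b : ℝ} (hb : 0 ≤ b) (h : E3) :
    Continuous (fun x => uu b x / uu b (x + h)) := by
  refine (continuous_uu b).div ((continuous_uu b).comp (continuous_id.add continuous_const)) ?_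
  intro x; exact (uu_pos hb _).ne'

lemma continuous_qq {b : ℝ} (hb : 0 ≤ b) (h : E3) : Continuous (fun x => qq b x h) := by
  unfold qq
  have h1 := continuous_ratio hb h
  have h2 := continuous_ratio hb (-h)
  simp only [← sub_eq_add_neg] at h2
  exact (continuous_const.sub h1).sub h2

lemma abs_qq_le {b : ℝ} (hb : 0 ≤ b) (x h : E3) : |qq b x h| ≤ 4 + 2 * (b * ‖h‖) := by
  unfold qq
  have h1 := ratio_le hb x h
  have h2 := ratio_le hb x (-h)
  have h3 := ratio_nonneg hb x h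
  have h4 := ratio_nonneg hb x (-h)
  rw [← sub_eq_add_neg, norm_neg] at h2
  rw [← sub_eq_add_neg] at h4
  rw [abs_le]; constructor <;> linarith

/-- Lower bound `q(x,h) ≥ - 2 b² |h|²`. -/
lemma qq_ge {b : ℝ} (hb : 0 ≤ b) (x h : E3) : - (2 * (b * ‖h‖) ^ 2) ≤ qq b x h := by
  have hu := uu_ge hb x
  have hp := uu_ge hb (x + h)
  have hm := uu_ge hb (x - h)
  have hconv : 2 * uu b x ≤ uu b (x + h) + uu b (x - h) := by
    have : ‖x‖ * 2 ≤ ‖x + h‖ + ‖x - h‖ := by
      calc ‖x‖ * 2 = ‖(x + h) + (x - h)‖ := by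
            have : (x + h) + (x - h) = (2 : ℝ) • x := by
              rw [two_smul]; abel
            rw [this, norm_smul]; norm_num; ring
        _ ≤ _ := norm_add_le _ _
    unfold uu; nlinarith
  have hd1 : |uu b x - uu b (x + h)| ≤ b * ‖h‖ := by
    unfold uu
    have : |‖x‖ - ‖x + h‖| ≤ ‖h‖ := by
      have := abs_norm_sub_norm_le x (x + h); simpa using this
    calc |1 + b * ‖x‖ - (1 + b * ‖x + h‖)| = |b * (‖x‖ - ‖x + h‖)| := by congr 1; ring
      _ = b * |‖x‖ - ‖x + h‖| := by rw [abs_mul, abs_of_nonneg hb]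
      _ ≤ _ := by gcongr
  have hd2 : |uu b x - uu b (x - h)| ≤ b * ‖h‖ := by
    unfold uu
    have : |‖x‖ - ‖x - h‖| ≤ ‖h‖ := by
      have := abs_norm_sub_norm_le x (x - h); simpa using this
    calc |1 + b * ‖x‖ - (1 + b * ‖x - h‖)| = |b * (‖x‖ - ‖x - h‖)| := by congr 1; ring
      _ = b * |‖x‖ - ‖x - h‖| := by rw [abs_mul, abs_of_nonneg hb]
      _ ≤ _ := by gcongr
  have hs1 : (uu b x - uu b (x + h)) ^ 2 ≤ (b * ‖h‖) ^ 2 := sq_le_sq' (abs_le.1 hd1).1 (abs_le.1 hd1).2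
  have hs2 : (uu b x - uu b (x - h)) ^ 2 ≤ (b * ‖h‖) ^ 2 := sq_le_sq' (abs_le.1 hd2).1 (abs_le.1 hd2).2
  have e : qq b x h = (uu b (x + h) + uu b (x - h) - 2 * uu b x) / uu b x
      - (uu b x - uu b (x + h)) ^ 2 / (uu b x * uu b (x + h))
      - (uu b x - uu b (x - h)) ^ 2 / (uu b x * uu b (x - h)) := by
    unfold qq
    have h1 : uu b x ≠ 0 := by positivity
    have h2 : uu b (x + h) ≠ 0 := by positivity
    have h3 : uu b (x - h) ≠ 0 := by positivity
    field_simp
    ring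
  rw [e]
  have t0 : 0 ≤ (uu b (x + h) + uu b (x - h) - 2 * uu b x) / uu b x :=
    div_nonneg (by linarith) (by linarith)
  have t1 : (uu b x - uu b (x + h)) ^ 2 / (uu b x * uu b (x + h)) ≤ (b * ‖h‖) ^ 2 := by
    refine (div_le_self (by positivity) ?_).trans hs1
    nlinarith
  have t2 : (uu b x - uu b (x - h)) ^ 2 / (uu b x * uu b (x - h)) ≤ (b * ‖h‖) ^ 2 := by
    refine (div_le_self (by positivity) ?_).trans hs2
    nlinarith
  linarith

/-- Discrete ground state inequality. -/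
lemma integral_qq_le {b : ℝ} (hb : 0 ≤ b) {f : E3 → ℝ} (hfm : Measurable f) (hf : MemLp f 2)
    (h : E3) :
    ∫ x, f x ^ 2 * qq b x h ≤ ∫ x, (f (x + h) - f x) ^ 2 := by
  have hfh : MemLp (fun x => f (x + h)) 2 := by
    simpa [Function.comp_def] using hf.comp_measurePreserving (measurePreserving_add_right volume h)
  have hbdd : ∀ {r : E3 → ℝ} {F : E3 → ℝ} {C : ℝ}, Continuous r → (∀ x, |r x| ≤ C) → Integrable F →
      Integrable (fun x => F x * r x) := by
    intro r F C hr hC hF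
    exact hF.mul_bdd hr.aestronglyMeasurable (Eventually.of_forall fun x => hC x)
  set r1 : E3 → ℝ := fun x => 1 - uu b x / uu b (x + h) with hr1
  set r2 : E3 → ℝ := fun x => 1 - uu b x / uu b (x - h) with hr2
  have hc1 : Continuous r1 := continuous_const.sub (continuous_ratio hb h)
  have hc2 : Continuous r2 := by
    have h2 := continuous_ratio hb (-h)
    simp only [← sub_eq_add_neg] at h2
    exact continuous_const.sub h2
  have hb1 : ∀ x, |r1 x| ≤ 2 + b * ‖h‖ := by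
    intro x
    have h1 := ratio_le hb x h
    have h3 := ratio_nonneg hb x h
    simp only [hr1]
    rw [abs_le]; constructor <;> nlinarith [mul_nonneg hb (norm_nonneg h)]
  have hb2 : ∀ x, |r2 x| ≤ 2 + b * ‖h‖ := by
    intro x
    have h1 := ratio_le hb x (-h)
    have h3 := ratio_nonneg hb x (-h)
    rw [← sub_eq_add_neg, norm_neg] at h1
    rw [← sub_eq_add_neg] at h3
    simp only [hr2]
    rw [abs_le]; constructor <;> nlinarith [mul_nonneg hb (norm_nonneg h)]
  have i1 : Integrable (fun x => f x ^ 2 * r1 x) := hbdd hc1 hb1 hf.integrable_sq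
  have i2 : Integrable (fun x => f x ^ 2 * r2 x) := hbdd hc2 hb2 hf.integrable_sq
  have i2' : Integrable (fun x => f (x + h) ^ 2 * r2 (x + h)) := i2.comp_add_right h
  have e1 : ∫ x, f x ^ 2 * qq b x h = (∫ x, f x ^ 2 * r1 x) + ∫ x, f (x + h) ^ 2 * r2 (x + h) := by
    rw [integral_add_right_eq_self (fun x => f x ^ 2 * r2 x) h, ← integral_add i1 i2]
    congr 1; ext x
    simp only [hr1, hr2, qq]; ring
  rw [e1, ← integral_add i1 i2']
  apply integral_mono (i1.add i2') (hfh.sub hf).integrable_sq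
  intro x
  simp only [Pi.add_apply, hr1, hr2, add_sub_cancel_right, Pi.sub_apply]
  have p1 := uu_pos hb x
  have p2 := uu_pos hb (x + h)
  rw [← sub_nonneg]
  have : (f (x + h) - f x) ^ 2 - (f x ^ 2 * (1 - uu b x / uu b (x + h))
      + f (x + h) ^ 2 * (1 - uu b (x + h) / uu b x))
      = (f x * uu b x - f (x + h) * uu b (x + h)) ^ 2 / (uu b x * uu b (x + h)) := by
    field_simp
    ring
  rw [this]
  positivity

/-- Limits of difference quotients of the norm. -/
lemma tendsto_norm_quot (x e : E3) (hx : x ≠ 0) (he : ‖e‖ = 1) :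
    Tendsto (fun t : ℝ => (‖x + t • e‖ - ‖x‖) / t) (𝓝[>] 0) (𝓝 (inner ℝ x e / ‖x‖)) ∧
    Tendsto (fun t : ℝ => (‖x + t • e‖ + ‖x - t • e‖ - 2 * ‖x‖) / t ^ 2) (𝓝[>] 0)
      (𝓝 (1 / ‖x‖ - inner ℝ x e ^ 2 / ‖x‖ ^ 3)) := by
  set s := inner ℝ x e with hs
  set r := ‖x‖ with hr
  have hr0 : 0 < r := norm_pos_iff.2 hx
  have hp2 : ∀ t : ℝ, ‖x + t • e‖ ^ 2 = r ^ 2 + 2 * t * s + t ^ 2 := by
    intro t
    rw [norm_add_sq_real, inner_smul_right, norm_smul, he, mul_one, Real.norm_eq_abs, sq_abs]; ring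
  have hm2 : ∀ t : ℝ, ‖x - t • e‖ ^ 2 = r ^ 2 - 2 * t * s + t ^ 2 := by
    intro t
    rw [norm_sub_sq_real, inner_smul_right, norm_smul, he, mul_one, Real.norm_eq_abs, sq_abs]; ring
  have cp : Continuous (fun t : ℝ => ‖x + t • e‖) := by fun_prop
  have cm : Continuous (fun t : ℝ => ‖x - t • e‖) := by fun_prop
  constructor
  · have h1 : Tendsto (fun t : ℝ => (2 * s + t) / (‖x + t • e‖ + r)) (𝓝[>] 0) (𝓝 (s / r)) := by
      have : ContinuousAt (fun t : ℝ => (2 * s + t) / (‖x + t • e‖ + r)) 0 := by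
        refine ContinuousAt.div (by fun_prop) (by fun_prop) ?_
        positivity
      have h2 := this.tendsto.mono_left (nhdsWithin_le_nhds (s := Ioi 0))
      convert h2 using 2
      simp [← hr]; field_simp; ring
    refine h1.congr' ?_
    filter_upwards [self_mem_nhdsWithin] with t ht
    have ht0 : (t : ℝ) ≠ 0 := (ne_of_gt ht)
    have hpos : 0 < ‖x + t • e‖ + r := by positivity
    rw [div_eq_div_iff hpos.ne' ht0]
    have := hp2 t
    linear_combination (-1 : ℝ) * this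
  · have h1 : Tendsto (fun t : ℝ => 1 / (‖x + t • e‖ + r) + 1 / (‖x - t • e‖ + r)
        - 8 * s ^ 2 / ((‖x + t • e‖ + r) * (‖x - t • e‖ + r) * (‖x + t • e‖ + ‖x - t • e‖)))
        (𝓝[>] 0) (𝓝 (1 / r - s ^ 2 / r ^ 3)) := by
      have : ContinuousAt (fun t : ℝ => 1 / (‖x + t • e‖ + r) + 1 / (‖x - t • e‖ + r)
        - 8 * s ^ 2 / ((‖x + t • e‖ + r) * (‖x - t • e‖ + r) * (‖x + t • e‖ + ‖x - t • e‖))) 0 := by
        refine ContinuousAt.sub (ContinuousAt.add (ContinuousAt.div (by fun_prop) (by fun_prop) ?_)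
          (ContinuousAt.div (by fun_prop) (by fun_prop) ?_)) (ContinuousAt.div (by fun_prop) (by fun_prop) ?_)
        · positivity
        · positivity
        · simp only [zero_smul, add_zero, sub_zero, ← hr]; positivity
      have h2 := this.tendsto.mono_left (nhdsWithin_le_nhds (s := Ioi 0))
      convert h2 using 2
      simp only [zero_smul, add_zero, sub_zero, ← hr]; field_simp; ring
    refine h1.congr' ?_
    filter_upwards [self_mem_nhdsWithin] with t ht
    have ht0 : (0 : ℝ) < t := ht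
    set P := ‖x + t • e‖ with hP
    set Q := ‖x - t • e‖ with hQ
    have hP0 : 0 ≤ P := norm_nonneg _
    have hQ0 : 0 ≤ Q := norm_nonneg _
    have hPQ : 0 < P + Q := by
      rcases eq_or_lt_of_le hP0 with h | h
      · rcases eq_or_lt_of_le hQ0 with h' | h'
        · exfalso
          have a1 : x + t • e = 0 := norm_eq_zero.1 h.symm
          have a2 : x - t • e = 0 := norm_eq_zero.1 h'.symm
          have : (2 : ℝ) • x = 0 := by
            calc (2 : ℝ) • x = (x + t • e) + (x - t • e) := by rw [two_smul]; abel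
              _ = 0 := by rw [a1, a2, add_zero]
          exact hx ((smul_eq_zero_iff_right (by norm_num)).1 this)
        · linarith
      · linarith
    have e1 := hp2 t
    have e2 := hm2 t
    rw [← hP] at e1
    rw [← hQ] at e2
    have f1 : P - r = (2 * t * s + t ^ 2) / (P + r) := by
      rw [eq_div_iff (by positivity)]; linear_combination e1
    have f2 : Q - r = (- (2 * t * s) + t ^ 2) / (Q + r) := by
      rw [eq_div_iff (by positivity)]; linear_combination e2
    have f3 : Q - P = - (4 * t * s) / (P + Q) := by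
      rw [eq_div_iff (by positivity)]; linear_combination e2 - e1
    have f4 : P + Q - 2 * r = t ^ 2 * (1 / (P + r) + 1 / (Q + r)) + 2 * t * s * ((Q - P) / ((P + r) * (Q + r))) := by
      have : P + Q - 2 * r = (P - r) + (Q - r) := by ring
      rw [this, f1, f2]
      have hp : P + r ≠ 0 := by positivity
      have hq : Q + r ≠ 0 := by positivity
      field_simp
      ring
    rw [f4, f3]
    have hp : P + r ≠ 0 := by positivity
    have hq : Q + r ≠ 0 := by positivity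
    field_simp
    ring

/-- The limit of `q(x, t e) / t²`. -/
lemma tendsto_qq {b : ℝ} (hb : 0 ≤ b) (x e : E3) (hx : x ≠ 0) (he : ‖e‖ = 1) :
    Tendsto (fun t : ℝ => qq b x (t • e) / t ^ 2) (𝓝[>] 0)
      (𝓝 (b / uu b x * (1 / ‖x‖ - inner ℝ x e ^ 2 / ‖x‖ ^ 3)
        - 2 * b ^ 2 * (inner ℝ x e / ‖x‖) ^ 2 / uu b x ^ 2)) := by
  obtain ⟨h1, h2⟩ := tendsto_norm_quot x e hx he
  obtain ⟨h1', -⟩ := tendsto_norm_quot x (-e) hx (by rw [norm_neg]; exact he)
  have hu0 := uu_pos hb x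
  have cu1 : Tendsto (fun t : ℝ => uu b (x + t • e)) (𝓝[>] 0) (𝓝 (uu b x)) := by
    have : Continuous (fun t : ℝ => uu b (x + t • e)) := (continuous_uu b).comp (by fun_prop)
    have := (this.tendsto 0).mono_left (nhdsWithin_le_nhds (s := Ioi 0))
    simpa using this
  have cu2 : Tendsto (fun t : ℝ => uu b (x - t • e)) (𝓝[>] 0) (𝓝 (uu b x)) := by
    have : Continuous (fun t : ℝ => uu b (x - t • e)) := (continuous_uu b).comp (by fun_prop)
    have := (this.tendsto 0).mono_left (nhdsWithin_le_nhds (s := Ioi 0))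
    simpa using this
  have h3 : Tendsto (fun t : ℝ => (b / uu b x) * ((‖x + t • e‖ + ‖x - t • e‖ - 2 * ‖x‖) / t ^ 2)
      - b ^ 2 * ((‖x + t • e‖ - ‖x‖) / t) ^ 2 / (uu b x * uu b (x + t • e))
      - b ^ 2 * ((‖x + t • (-e)‖ - ‖x‖) / t) ^ 2 / (uu b x * uu b (x - t • e))) (𝓝[>] 0)
      (𝓝 ((b / uu b x) * (1 / ‖x‖ - inner ℝ x e ^ 2 / ‖x‖ ^ 3)
        - b ^ 2 * (inner ℝ x e / ‖x‖) ^ 2 / (uu b x * uu b x)
        - b ^ 2 * (inner ℝ x (-e) / ‖x‖) ^ 2 / (uu b x * uu b x))) := by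
    refine ((h2.const_mul _).sub (((h1.pow 2).const_mul _).div (tendsto_const_nhds.mul cu1)
      (mul_pos hu0 hu0).ne')).sub (((h1'.pow 2).const_mul _).div (tendsto_const_nhds.mul cu2)
      (mul_pos hu0 hu0).ne')
  have e0 : (b / uu b x) * (1 / ‖x‖ - inner ℝ x e ^ 2 / ‖x‖ ^ 3)
        - b ^ 2 * (inner ℝ x e / ‖x‖) ^ 2 / (uu b x * uu b x)
        - b ^ 2 * (inner ℝ x (-e) / ‖x‖) ^ 2 / (uu b x * uu b x)
      = b / uu b x * (1 / ‖x‖ - inner ℝ x e ^ 2 / ‖x‖ ^ 3)
        - 2 * b ^ 2 * (inner ℝ x e / ‖x‖) ^ 2 / uu b x ^ 2 := by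
    rw [inner_neg_right]
    field_simp
    ring
  rw [e0] at h3
  refine h3.congr' ?_
  filter_upwards [self_mem_nhdsWithin] with t ht
  have ht0 : (t : ℝ) ≠ 0 := (ne_of_gt ht)
  have p1 := uu_pos hb (x + t • e)
  have p2 := uu_pos hb (x - t • e)
  have e1 : x + t • (-e) = x - t • e := by rw [smul_neg, sub_eq_add_neg]
  rw [e1]
  have d1 : b * (‖x + t • e‖ - ‖x‖) = uu b (x + t • e) - uu b x := by unfold uu; ring
  have d2 : b * (‖x - t • e‖ - ‖x‖) = uu b (x - t • e) - uu b x := by unfold uu; ring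
  have d3 : b * (‖x + t • e‖ + ‖x - t • e‖ - 2 * ‖x‖) =
      uu b (x + t • e) + uu b (x - t • e) - 2 * uu b x := by unfold uu; ring
  have s1 : b / uu b x * ((‖x + t • e‖ + ‖x - t • e‖ - 2 * ‖x‖) / t ^ 2)
      = (uu b (x + t • e) + uu b (x - t • e) - 2 * uu b x) / (uu b x * t ^ 2) := by
    rw [← d3]; field_simp
  have s2 : b ^ 2 * ((‖x + t • e‖ - ‖x‖) / t) ^ 2 / (uu b x * uu b (x + t • e))
      = (uu b (x + t • e) - uu b x) ^ 2 / (t ^ 2 * (uu b x * uu b (x + t • e))) := by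
    rw [← d1]; field_simp
  have s3 : b ^ 2 * ((‖x - t • e‖ - ‖x‖) / t) ^ 2 / (uu b x * uu b (x - t • e))
      = (uu b (x - t • e) - uu b x) ^ 2 / (t ^ 2 * (uu b x * uu b (x - t • e))) := by
    rw [← d2]; field_simp
  rw [s1, s2, s3]
  unfold qq
  field_simp
  ring

/-- The kinetic weight `V(x) = 2b / (|x| (1 + b|x|)²)`. -/
noncomputable def vv (b : ℝ) (x : E3) : ℝ := 2 * b / (‖x‖ * (1 + b * ‖x‖) ^ 2)

lemma vv_nonneg {b : ℝ} (hb : 0 ≤ b) (x : E3) : 0 ≤ vv b x := by
  unfold vv; positivity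

lemma measurable_vv (b : ℝ) : Measurable (vv b) := by unfold vv; fun_prop

/-- The kinetic lower bound: `∫ f² V ≤ ∫ |∇f|²`, and `f² V` is integrable. -/
theorem integral_vv_le {b : ℝ} (hb : 0 ≤ b) {f : E3 → ℝ} {g : E3 → E3} (hfm : Measurable f)
    (hf : MemLp f 2) (hw : IsWeakGradient f g) (hg : MemLp g 2) :
    Integrable (fun x => f x ^ 2 * vv b x) ∧ ∫ x, f x ^ 2 * vv b x ≤ ∫ x, ‖g x‖ ^ 2 := by
  set G := ∫ x, ‖g x‖ ^ 2 with hG
  set e : Fin 3 → E3 := fun i => EuclideanSpace.single i 1 with he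
  have hen : ∀ i, ‖e i‖ = 1 := by intro i; simp [he]
  have hin : ∀ (x : E3) i, inner ℝ x (e i) = x i := by
    intro x i; simp [he, EuclideanSpace.inner_single_right]
  have hsum : ∀ x : E3, ∑ i, (x i) ^ 2 = ‖x‖ ^ 2 := by
    intro x
    rw [EuclideanSpace.norm_sq_eq]
    simp
  -- the discrete inequality
  have hgi : ∀ i, MemLp (fun x => inner ℝ (g x) (e i)) 2 := by
    intro i
    have := hg.const_inner (𝕜 := ℝ) (e i)
    refine this.congr_norm ?_ ?_
    · exact (hg.1.inner aestronglyMeasurable_const)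
    · filter_upwards with x; rw [real_inner_comm]
  have hqi : ∀ (t : ℝ) i, Integrable (fun x => f x ^ 2 * qq b x (t • e i)) := by
    intro t i
    exact hf.integrable_sq.mul_bdd (continuous_qq hb _).aestronglyMeasurable
      (Eventually.of_forall fun x => abs_qq_le hb x _)
  have hdisc : ∀ t : ℝ, ∑ i, ∫ x, f x ^ 2 * qq b x (t • e i) ≤ t ^ 2 * G := by
    intro t
    have h1 : ∀ i, ∫ x, f x ^ 2 * qq b x (t • e i) ≤ t ^ 2 * ∫ x, inner ℝ (g x) (e i) ^ 2 := by
      intro i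
      refine (integral_qq_le hb hfm hf _).trans ((integral_translate_sub_sq_le_dir hf hw hg _).trans ?_)
      rw [← integral_const_mul]
      apply le_of_eq
      congr 1; ext x
      rw [inner_smul_right]; ring
    refine (Finset.sum_le_sum fun i _ => h1 i).trans ?_
    rw [← Finset.mul_sum, ← integral_finset_sum _ (fun i _ => (hgi i).integrable_sq)]
    apply le_of_eq
    congr 1
    rw [hG]
    congr 1; ext x
    simp only [hin]
    exact hsum (g x)
  -- Fatou
  set Q : ℝ → E3 → ℝ := fun t x => (∑ i, qq b x (t • e i)) / t ^ 2 + 6 * b ^ 2 with hQ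
  have hQ0 : ∀ t : ℝ, 0 < t → ∀ x, 0 ≤ Q t x := by
    intro t ht x
    have h1 : ∀ i, - (2 * (b * t) ^ 2) ≤ qq b x (t • e i) := by
      intro i
      have := qq_ge hb x (t • e i)
      rwa [norm_smul, hen, mul_one, Real.norm_eq_abs, abs_of_pos ht] at this
    have h2 : - (6 * (b * t) ^ 2) ≤ ∑ i, qq b x (t • e i) := by
      have := Finset.sum_le_sum (s := Finset.univ) fun i (_ : i ∈ Finset.univ) => h1 i
      simp only [Finset.sum_const, Finset.card_univ, Fintype.card_fin, nsmul_eq_mul] at this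
      push_cast at this
      linarith
    have h3 : - (6 * b ^ 2) ≤ (∑ i, qq b x (t • e i)) / t ^ 2 := by
      rw [le_div_iff₀ (by positivity)]
      linarith [h2, mul_pow b t 2]
    simp only [hQ]; linarith
  have hQint : ∀ t : ℝ, Integrable (fun x => f x ^ 2 * Q t x) := by
    intro t
    have h1 : Integrable (fun x => (∑ i, f x ^ 2 * qq b x (t • e i)) / t ^ 2 + 6 * b ^ 2 * f x ^ 2) :=
      ((integrable_finset_sum _ fun i _ => hqi t i).div_const _).add (hf.integrable_sq.const_mul _)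
    refine h1.congr (Eventually.of_forall fun x => ?_)
    simp only [hQ]
    rw [← Finset.mul_sum]; ring
  have hQval : ∀ t : ℝ, 0 < t → ∫ x, f x ^ 2 * Q t x ≤ G + 6 * b ^ 2 * ∫ x, f x ^ 2 := by
    intro t ht
    have h1 : ∫ x, f x ^ 2 * Q t x = (∑ i, ∫ x, f x ^ 2 * qq b x (t • e i)) / t ^ 2
        + 6 * b ^ 2 * ∫ x, f x ^ 2 := by
      rw [← integral_finset_sum _ (fun i _ => hqi t i), ← integral_div, ← integral_const_mul,
        ← integral_add ((integrable_finset_sum _ fun i _ => hqi t i).div_const _)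
          (hf.integrable_sq.const_mul _)]
      congr 1; ext x
      simp only [hQ]
      rw [← Finset.mul_sum]; ring
    rw [h1]
    have h2 : (∑ i, ∫ x, f x ^ 2 * qq b x (t • e i)) / t ^ 2 ≤ G := by
      rw [div_le_iff₀ (by positivity), mul_comm G]
      exact hdisc t
    linarith
  have hlim : ∀ x : E3, x ≠ 0 → Tendsto (fun t : ℝ => Q t x) (𝓝[>] 0) (𝓝 (vv b x + 6 * b ^ 2)) := by
    intro x hx
    have h1 := tendsto_finset_sum (Finset.univ : Finset (Fin 3))
      (fun i _ => tendsto_qq hb x (e i) hx (hen i))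
    have hr0 : 0 < ‖x‖ := norm_pos_iff.2 hx
    have hu0 := uu_pos hb x
    have e1 : ∑ i : Fin 3, (b / uu b x * (1 / ‖x‖ - inner ℝ x (e i) ^ 2 / ‖x‖ ^ 3)
        - 2 * b ^ 2 * (inner ℝ x (e i) / ‖x‖) ^ 2 / uu b x ^ 2) = vv b x := by
      simp only [hin]
      have h3 := hsum x
      rw [Fin.sum_univ_three] at h3 ⊢
      have e2 : b / uu b x * (1 / ‖x‖ - x 0 ^ 2 / ‖x‖ ^ 3) - 2 * b ^ 2 * (x 0 / ‖x‖) ^ 2 / uu b x ^ 2
          + (b / uu b x * (1 / ‖x‖ - x 1 ^ 2 / ‖x‖ ^ 3) - 2 * b ^ 2 * (x 1 / ‖x‖) ^ 2 / uu b x ^ 2)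
          + (b / uu b x * (1 / ‖x‖ - x 2 ^ 2 / ‖x‖ ^ 3) - 2 * b ^ 2 * (x 2 / ‖x‖) ^ 2 / uu b x ^ 2)
          = b / uu b x * (3 / ‖x‖ - (x 0 ^ 2 + x 1 ^ 2 + x 2 ^ 2) / ‖x‖ ^ 3)
            - 2 * b ^ 2 * ((x 0 ^ 2 + x 1 ^ 2 + x 2 ^ 2) / ‖x‖ ^ 2) / uu b x ^ 2 := by
        field_simp
        ring
      rw [e2, h3]
      have e3 : uu b x = 1 + b * ‖x‖ := rfl
      unfold vv
      rw [← e3]
      field_simp
      rw [e3]; ring
    rw [e1] at h1
    have h2 : Tendsto (fun t : ℝ => (∑ i, qq b x (t • e i) / t ^ 2) + 6 * b ^ 2) (𝓝[>] 0)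
        (𝓝 (vv b x + 6 * b ^ 2)) := h1.add_const _
    refine h2.congr fun t => ?_
    simp only [hQ]
    rw [Finset.sum_div]
  have hne : ∀ᵐ x : E3, x ≠ 0 := by
    rw [ae_iff]; simp
  have hF : ∫⁻ x, ENNReal.ofReal (f x ^ 2 * (vv b x + 6 * b ^ 2)) ≤
      ENNReal.ofReal (G + 6 * b ^ 2 * ∫ x, f x ^ 2) := by
    calc ∫⁻ x, ENNReal.ofReal (f x ^ 2 * (vv b x + 6 * b ^ 2))
        = ∫⁻ x, liminf (fun t : ℝ => ENNReal.ofReal (f x ^ 2 * Q t x)) (𝓝[>] 0) := by
          apply lintegral_congr_ae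
          filter_upwards [hne] with x hx
          have := ENNReal.tendsto_ofReal ((hlim x hx).const_mul (f x ^ 2))
          exact this.liminf_eq.symm
      _ ≤ liminf (fun t : ℝ => ∫⁻ x, ENNReal.ofReal (f x ^ 2 * Q t x)) (𝓝[>] 0) := by
          apply lintegral_liminf_le
          intro t
          have : Measurable (fun x => Q t x) := by
            simp only [hQ]
            have h1 : ∀ i, Measurable (fun x => qq b x (t • e i)) :=
              fun i => (continuous_qq hb _).measurable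
            exact ((Finset.measurable_sum _ fun i _ => h1 i).div_const _).add_const _
          exact ((hfm.pow_const 2).mul this).ennreal_ofReal
      _ ≤ ENNReal.ofReal (G + 6 * b ^ 2 * ∫ x, f x ^ 2) := by
          refine (liminf_le_liminf (v := fun _ => ENNReal.ofReal (G + 6 * b ^ 2 * ∫ x, f x ^ 2)) ?_).trans
            (le_of_eq (by simp))
          filter_upwards [self_mem_nhdsWithin] with t ht
          have ht0 : (0 : ℝ) < t := ht
          rw [← ofReal_integral_eq_lintegral_ofReal (hQint t)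
            (Eventually.of_forall fun x => mul_nonneg (sq_nonneg _) (hQ0 t ht0 x))]
          exact ENNReal.ofReal_le_ofReal (hQval t ht0)
  have hint : Integrable (fun x => f x ^ 2 * (vv b x + 6 * b ^ 2)) := by
    refine ⟨((hfm.pow_const 2).mul ((measurable_vv b).add_const _)).aestronglyMeasurable, ?_⟩
    rw [hasFiniteIntegral_iff_ofReal (Eventually.of_forall fun x =>
      mul_nonneg (sq_nonneg _) (add_nonneg (vv_nonneg hb x) (by positivity)))]
    exact lt_of_le_of_lt hF ENNReal.ofReal_lt_top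
  have hint2 : Integrable (fun x => f x ^ 2 * vv b x) := by
    have := hint.sub (hf.integrable_sq.const_mul (6 * b ^ 2))
    refine this.congr (Eventually.of_forall fun x => ?_)
    simp only [Pi.sub_apply]; ring
  refine ⟨hint2, ?_⟩
  have h5 : 0 ≤ G := integral_nonneg fun x => by positivity
  have h6 : 0 ≤ ∫ x, f x ^ 2 := integral_nonneg fun x => by positivity
  rw [← ofReal_integral_eq_lintegral_ofReal hint (Eventually.of_forall fun x =>
      mul_nonneg (sq_nonneg _) (add_nonneg (vv_nonneg hb x) (by positivity))),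
    ENNReal.ofReal_le_ofReal_iff (by positivity)] at hF
  have h7 : ∫ x, f x ^ 2 * (vv b x + 6 * b ^ 2) = (∫ x, f x ^ 2 * vv b x) + 6 * b ^ 2 * ∫ x, f x ^ 2 := by
    rw [← integral_const_mul, ← integral_add hint2 (hf.integrable_sq.const_mul _)]
    congr 1; ext x; ring
  linarith

end Pool.Agent.Work.MP_8f8f86_mp
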