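import Pool.Agent.Work.MP_8f8f86_mp.Defs

open MeasureTheory Metric Set Filter Topology
open scoped ENNReal Real

namespace Pool.Agent.Work.MP_8f8f86_mp

/-- Coordinates. -/
lemma lintegral_coord {H : ℝ × (ℝ × ℝ) → ℝ≥0∞} (hH : Measurable H) :
    ∫⁻ y : E3, H (y 0, (y 1, y 2)) = ∫⁻ t : ℝ, ∫⁻ p : ℝ × ℝ, H (t, p) := by
  have h1 := EuclideanSpace.volume_preserving_symm_measurableEquiv_toLp (Fin 3)
  have h2 := volume_preserving_piFinSuccAbove (fun _ : Fin 3 => ℝ) 0
  have h3 := volume_preserving_finTwoArrow ℝ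
  have h4 : MeasurePreserving (Prod.map (id : ℝ → ℝ) (MeasurableEquiv.finTwoArrow (α := ℝ)))
      (volume : Measure (ℝ × (Fin 2 → ℝ))) (volume : Measure (ℝ × (ℝ × ℝ))) :=
    (MeasurePreserving.id volume).prod h3
  have h5 := (h4.comp h2).comp h1
  have h6 := h5.lintegral_comp hH
  rw [Measure.volume_eq_prod, lintegral_prod _ hH.aemeasurable] at h6
  rw [← h6]
  rfl

/-- Polar coordinates in the plane, for radial functions. -/
lemma lintegral_plane {h : ℝ → ℝ≥0∞} (hh : Measurable h) (t : ℝ) :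
    ∫⁻ p : ℝ × ℝ, h (√(t ^ 2 + p.1 ^ 2 + p.2 ^ 2)) =
      ENNReal.ofReal (2 * π) * ∫⁻ r in Ioi (0 : ℝ), ENNReal.ofReal r * h (√(t ^ 2 + r ^ 2)) := by
  rw [← lintegral_comp_polarCoord_symm]
  have h1 : ∀ p : ℝ × ℝ, ENNReal.ofReal p.1 • h (√(t ^ 2 + (polarCoord.symm p).1 ^ 2 +
      (polarCoord.symm p).2 ^ 2)) = ENNReal.ofReal p.1 * h (√(t ^ 2 + p.1 ^ 2)) := by
    intro p
    rw [smul_eq_mul]
    congr 3
    simp only [polarCoord_symm_apply]
    linear_combination (p.1 ^ 2) * (Real.sin_sq_add_cos_sq p.2)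
  simp only [h1]
  rw [polarCoord_target, Measure.volume_eq_prod, ← Measure.prod_restrict,
    lintegral_prod _ (by fun_prop)]
  simp only [lintegral_const, Measure.restrict_apply MeasurableSet.univ, univ_inter]
  rw [lintegral_mul_const _ (by fun_prop)]
  rw [Real.volume_Ioo, mul_comm]
  congr 2; ring

/-- The substitution `s = √(t² + r²)`. -/
lemma lintegral_subst (h : ℝ → ℝ≥0∞) (t : ℝ) :
    ∫⁻ r in Ioi (0 : ℝ), ENNReal.ofReal r * h (√(t ^ 2 + r ^ 2)) =
      ∫⁻ s in Ioi |t|, ENNReal.ofReal s * h s := by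
  have hpos : ∀ r ∈ Ioi (0 : ℝ), 0 < t ^ 2 + r ^ 2 := by
    intro r hr
    have : (0 : ℝ) < r := hr
    positivity
  have himg : (fun r : ℝ => √(t ^ 2 + r ^ 2)) '' Ioi 0 = Ioi |t| := by
    ext s
    constructor
    · rintro ⟨r, hr, rfl⟩
      have hr0 : (0 : ℝ) < r := hr
      show |t| < √(t ^ 2 + r ^ 2)
      rw [← Real.sqrt_sq_eq_abs]
      exact Real.sqrt_lt_sqrt (sq_nonneg _) (by nlinarith)
    · intro hs
      have hs' : |t| < s := hs
      have hs0 : 0 < s := lt_of_le_of_lt (abs_nonneg t) hs'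
      have h1 : t ^ 2 < s ^ 2 := by
        rw [← sq_abs t]; exact pow_lt_pow_left₀ hs' (abs_nonneg t) (by norm_num)
      refine ⟨√(s ^ 2 - t ^ 2), Real.sqrt_pos.2 (by linarith), ?_⟩
      show √(t ^ 2 + √(s ^ 2 - t ^ 2) ^ 2) = s
      rw [Real.sq_sqrt (by linarith)]
      rw [show t ^ 2 + (s ^ 2 - t ^ 2) = s ^ 2 by ring, Real.sqrt_sq hs0.le]
  have hder : ∀ r ∈ Ioi (0 : ℝ), HasDerivWithinAt (fun r : ℝ => √(t ^ 2 + r ^ 2))
      (r / √(t ^ 2 + r ^ 2)) (Ioi 0) r := by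
    intro r hr
    have h0 := hpos r hr
    have h1 : HasDerivAt (fun r : ℝ => t ^ 2 + r ^ 2) (2 * r) r := by
      have := ((hasDerivAt_pow 2 r).const_add (t ^ 2))
      simpa using this
    have h2 := h1.sqrt h0.ne'
    refine (h2.congr_deriv ?_).hasDerivWithinAt
    field_simp
  have hinj : InjOn (fun r : ℝ => √(t ^ 2 + r ^ 2)) (Ioi 0) := by
    intro r hr r' hr' heq
    have hr0 : (0 : ℝ) < r := hr
    have hr0' : (0 : ℝ) < r' := hr'
    simp only at heq
    have h1 := (Real.sqrt_inj (hpos r hr).le (hpos r' hr').le).1 heq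
    have h2 : r ^ 2 = r' ^ 2 := by linarith
    exact (pow_left_inj₀ hr0.le hr0'.le (by norm_num)).1 h2
  have key := lintegral_image_eq_lintegral_abs_deriv_mul measurableSet_Ioi hder hinj
    (fun s => ENNReal.ofReal s * h s)
  rw [himg] at key
  rw [key]
  apply setLIntegral_congr_fun measurableSet_Ioi
  intro r hr
  have hr0 : (0 : ℝ) < r := hr
  have h0 := hpos r hr
  have hs : 0 < √(t ^ 2 + r ^ 2) := Real.sqrt_pos.2 h0
  simp only
  rw [← mul_assoc, ← ENNReal.ofReal_mul (abs_nonneg _), abs_of_pos (div_pos hr0 hs)]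
  congr 2
  field_simp

/-- Integration of functions of `(|y|, y₀)` over `ℝ³`. -/
theorem lintegral_cyl {F : ℝ → ℝ → ℝ≥0∞} (hF : Measurable (Function.uncurry F)) :
    ∫⁻ y : E3, F ‖y‖ (y 0) = ENNReal.ofReal (2 * π) *
      ∫⁻ s in Ioi (0 : ℝ), ENNReal.ofReal s * ∫⁻ t in Ioo (-s) s, F s t := by
  have hF2 : ∀ t, Measurable (fun s => F s t) := fun t => hF.comp (measurable_id.prodMk measurable_const)
  set H : ℝ × (ℝ × ℝ) → ℝ≥0∞ := fun q => F (√(q.1 ^ 2 + q.2.1 ^ 2 + q.2.2 ^ 2)) q.1 with hHdef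
  have hHm : Measurable H := by
    have h1 : Measurable (fun q : ℝ × (ℝ × ℝ) => (√(q.1 ^ 2 + q.2.1 ^ 2 + q.2.2 ^ 2), q.1)) := by
      fun_prop
    exact hF.comp h1
  have e1 : ∫⁻ y : E3, F ‖y‖ (y 0) = ∫⁻ y : E3, H (y 0, (y 1, y 2)) := by
    congr 1; ext y
    simp only [hHdef]
    congr 1
    rw [EuclideanSpace.norm_eq]
    congr 1
    rw [Fin.sum_univ_three]
    simp
  rw [e1, lintegral_coord hHm]
  · simp only [hHdef]
    have e2 : ∀ t : ℝ, ∫⁻ p : ℝ × ℝ, F (√(t ^ 2 + p.1 ^ 2 + p.2 ^ 2)) t =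
        ENNReal.ofReal (2 * π) * ∫⁻ s in Ioi |t|, ENNReal.ofReal s * F s t := by
      intro t
      rw [lintegral_plane (hF2 t) t, lintegral_subst (fun s => F s t) t]
    simp only [e2]
    have hm : Measurable (fun q : ℝ × ℝ => {q : ℝ × ℝ | |q.1| < q.2}.indicator
        (fun q => ENNReal.ofReal q.2 * F q.2 q.1) q) := by
      apply Measurable.indicator
      · exact (by fun_prop : Measurable (fun q : ℝ × ℝ => ENNReal.ofReal q.2)).mul
          (hF.comp measurable_swap)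
      · exact measurableSet_lt (by fun_prop) (by fun_prop)
    have e3 : ∀ t : ℝ, ∫⁻ s in Ioi |t|, ENNReal.ofReal s * F s t =
        ∫⁻ s, {q : ℝ × ℝ | |q.1| < q.2}.indicator (fun q => ENNReal.ofReal q.2 * F q.2 q.1) (t, s) := by
      intro t
      rw [← lintegral_indicator measurableSet_Ioi]
      congr 1
    simp only [e3]
    rw [lintegral_const_mul _ (by exact hm.lintegral_prod_right')]
    congr 1
    rw [lintegral_lintegral_swap (by exact hm.aemeasurable)]
    rw [← lintegral_indicator measurableSet_Ioi]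
    congr 1; ext s
    by_cases hs : 0 < s
    · rw [indicator_of_mem (show s ∈ Ioi (0 : ℝ) from hs), ← lintegral_const_mul _
        (by exact hF.comp (measurable_const.prodMk measurable_id)),
        ← lintegral_indicator measurableSet_Ioo]
      congr 1; ext t
      simp only [indicator, mem_setOf_eq, mem_Ioo, abs_lt]
    · rw [indicator_of_notMem (show s ∉ Ioi (0 : ℝ) from hs)]
      have : ∀ t : ℝ, {q : ℝ × ℝ | |q.1| < q.2}.indicator (fun q => ENNReal.ofReal q.2 * F q.2 q.1) (t, s) = 0 := by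
        intro t
        apply indicator_of_notMem
        simp only [mem_setOf_eq, not_lt]
        exact (not_lt.1 hs).trans (abs_nonneg t)
      simp only [this, lintegral_zero]

/-- Radial integrals. -/
theorem lintegral_radial {S : ℝ → ℝ≥0∞} (hS : Measurable S) :
    ∫⁻ y : E3, S ‖y‖ = ENNReal.ofReal (4 * π) *
      ∫⁻ s in Ioi (0 : ℝ), ENNReal.ofReal (s ^ 2) * S s := by
  have h := lintegral_cyl (F := fun s _ => S s) (hS.comp measurable_fst)
  rw [h]
  have e : ∀ s ∈ Ioi (0 : ℝ), ENNReal.ofReal s * ∫⁻ _ in Ioo (-s) s, S s =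
      ENNReal.ofReal 2 * (ENNReal.ofReal (s ^ 2) * S s) := by
    intro s hs
    have hs0 : (0 : ℝ) < s := hs
    rw [lintegral_const, Measure.restrict_apply MeasurableSet.univ, univ_inter, Real.volume_Ioo]
    rw [show s - -s = 2 * s by ring, ENNReal.ofReal_mul (by norm_num), sq, ENNReal.ofReal_mul hs0.le]
    ring
  rw [setLIntegral_congr_fun measurableSet_Ioi e, lintegral_const_mul _ (by fun_prop), ← mul_assoc,
    ← ENNReal.ofReal_mul (by positivity)]
  congr 2; ring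

/-- The one-dimensional integral in Newton's theorem. -/
lemma lintegral_inv_sqrt {a s : ℝ} (ha : 0 < a) (hs : 0 < s) (hne : s ≠ a) :
    ∫⁻ t in Ioo (-s) s, ENNReal.ofReal ((√(a ^ 2 - 2 * a * t + s ^ 2))⁻¹) =
      ENNReal.ofReal ((a + s - |a - s|) / a) := by
  have hpos : ∀ t ∈ Icc (-s) s, 0 < a ^ 2 - 2 * a * t + s ^ 2 := by
    intro t ht
    have h1 : 0 < (a - s) ^ 2 := by
      have : a - s ≠ 0 := sub_ne_zero.2 (Ne.symm hne)
      positivity
    nlinarith [ht.2, mul_le_mul_of_nonneg_left ht.2 ha.le]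
  have hcont : ContinuousOn (fun t : ℝ => (√(a ^ 2 - 2 * a * t + s ^ 2))⁻¹) (Icc (-s) s) := by
    apply ContinuousOn.inv₀ (by fun_prop)
    intro t ht
    exact (Real.sqrt_pos.2 (hpos t ht)).ne'
  have hle : -s ≤ s := by linarith
  have hint : IntervalIntegrable (fun t : ℝ => (√(a ^ 2 - 2 * a * t + s ^ 2))⁻¹) volume (-s) s :=
    ContinuousOn.intervalIntegrable (by rwa [uIcc_of_le hle])
  have hder : ∀ t ∈ uIcc (-s) s, HasDerivAt (fun t : ℝ => - √(a ^ 2 - 2 * a * t + s ^ 2) / a)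
      ((√(a ^ 2 - 2 * a * t + s ^ 2))⁻¹) t := by
    intro t ht
    rw [uIcc_of_le hle] at ht
    have h0 := hpos t ht
    have h1 : HasDerivAt (fun t : ℝ => a ^ 2 - 2 * a * t + s ^ 2) (- (2 * a)) t := by
      have := (((hasDerivAt_id t).const_mul (2 * a)).const_sub (a ^ 2)).add_const (s ^ 2)
      simpa using this
    have h2 := ((h1.sqrt h0.ne').neg).div_const a
    refine h2.congr_deriv ?_
    have := (Real.sqrt_pos.2 h0).ne'
    field_simp
  have hval := intervalIntegral.integral_eq_sub_of_hasDerivAt hder hint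
  rw [intervalIntegral.integral_of_le hle] at hval
  have hint' := (intervalIntegrable_iff_integrableOn_Ioc_of_le hle).1 hint
  rw [setLIntegral_congr Ioo_ae_eq_Ioc]
  rw [← ofReal_integral_eq_lintegral_ofReal hint' (Eventually.of_forall fun t => by positivity), hval]
  congr 1
  have e1 : a ^ 2 - 2 * a * s + s ^ 2 = (a - s) ^ 2 := by ring
  have e2 : a ^ 2 - 2 * a * (-s) + s ^ 2 = (a + s) ^ 2 := by ring
  rw [e1, e2, Real.sqrt_sq_eq_abs, Real.sqrt_sq (by positivity)]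
  ring

/-- Newton's theorem for radial charge distributions. -/
theorem newton {S : ℝ → ℝ≥0∞} (hS : Measurable S) (x : E3) (hx : x ≠ 0) :
    ∫⁻ y : E3, S ‖y‖ * ENNReal.ofReal (‖x - y‖⁻¹) = ENNReal.ofReal (2 * π) *
      ∫⁻ s in Ioi (0 : ℝ), ENNReal.ofReal s *
        (S s * ENNReal.ofReal ((‖x‖ + s - |‖x‖ - s|) / ‖x‖)) := by
  set a := ‖x‖ with ha
  have ha0 : 0 < a := norm_pos_iff.2 hx
  set e0 : E3 := EuclideanSpace.single 0 1 with he0
  have hn : ‖x‖ = ‖a • e0‖ := by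
    rw [norm_smul]; simp [he0, ha]
  set R : E3 ≃ₗᵢ[ℝ] E3 := (ℝ ∙ (x - a • e0))ᗮ.reflection with hR
  have hRx : R x = a • e0 := Submodule.reflection_sub hn
  have e1 : ∫⁻ y : E3, S ‖y‖ * ENNReal.ofReal (‖x - y‖⁻¹) =
      ∫⁻ y : E3, S ‖y‖ * ENNReal.ofReal (‖a • e0 - y‖⁻¹) := by
    have hmp : MeasurePreserving R volume volume := R.measurePreserving
    rw [← hmp.lintegral_comp (f := fun y : E3 => S ‖y‖ * ENNReal.ofReal (‖a • e0 - y‖⁻¹))
      (by fun_prop)]
    congr 1; ext y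
    rw [← hRx, ← map_sub, LinearIsometryEquiv.norm_map, LinearIsometryEquiv.norm_map]
  have e2 : ∀ y : E3, ‖a • e0 - y‖ = √(a ^ 2 - 2 * a * (y 0) + ‖y‖ ^ 2) := by
    intro y
    rw [← Real.sqrt_sq (norm_nonneg (a • e0 - y)), norm_sub_sq_real, norm_smul]
    congr 1
    have h1 : inner ℝ (a • e0) y = a * y 0 := by
      rw [inner_smul_left, he0, EuclideanSpace.inner_single_left]; simp
    rw [h1]
    simp [he0, abs_of_pos ha0]
    ring
  rw [e1]
  simp only [e2]
  have hF : Measurable (Function.uncurry (fun s t : ℝ => S s *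
      ENNReal.ofReal ((√(a ^ 2 - 2 * a * t + s ^ 2))⁻¹))) := by
    unfold Function.uncurry
    fun_prop
  rw [lintegral_cyl hF]
  congr 1
  have hne : ∀ᵐ s : ℝ ∂(volume.restrict (Ioi (0 : ℝ))), s ≠ a := by
    apply ae_restrict_of_ae
    rw [ae_iff]; simp
  apply lintegral_congr_ae
  filter_upwards [hne, ae_restrict_mem measurableSet_Ioi] with s hs hs0
  rw [lintegral_const_mul _ (by fun_prop), lintegral_inv_sqrt ha0 hs0 hs]

end Pool.Agent.Work.MP_8f8f86_mp
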