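import Pool.Agent.Work.MP_8f8f86_mp.Psd
import Pool.Agent.Work.MP_8f8f86_mp.Newton
import Pool.Agent.Work.MP_8f8f86_mp.Kinetic

open MeasureTheory Metric Set Filter Topology
open scoped ENNReal Real

namespace Pool.Agent.Work.MP_8f8f86_mp

lemma lintegral_Ioi_of_deriv {G G' : ℝ → ℝ} {a l : ℝ} (hd : ∀ x ∈ Ici a, HasDerivAt G (G' x) x)
    (h0 : ∀ x ∈ Ioi a, 0 ≤ G' x) (hl : Tendsto G atTop (𝓝 l)) :
    ∫⁻ x in Ioi a, ENNReal.ofReal (G' x) = ENNReal.ofReal (l - G a) := by
  rw [← ofReal_integral_eq_lintegral_ofReal (integrableOn_Ioi_deriv_of_nonneg' hd h0 hl)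
    (ae_restrict_of_forall_mem measurableSet_Ioi h0), integral_Ioi_of_hasDerivAt_of_nonneg' hd h0 hl]

lemma lintegral_Ioc_of_deriv {G G' : ℝ → ℝ} {a b : ℝ} (hab : a ≤ b)
    (hd : ∀ x ∈ Icc a b, HasDerivAt G (G' x) x) (hc : ContinuousOn G' (Icc a b))
    (h0 : ∀ x ∈ Ioc a b, 0 ≤ G' x) :
    ∫⁻ x in Ioc a b, ENNReal.ofReal (G' x) = ENNReal.ofReal (G b - G a) := by
  have hi : IntervalIntegrable G' volume a b := ContinuousOn.intervalIntegrable (by rwa [uIcc_of_le hab])
  rw [← ofReal_integral_eq_lintegral_ofReal ((intervalIntegrable_iff_integrableOn_Ioc_of_le hab).1 hi)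
    (ae_restrict_of_forall_mem measurableSet_Ioc h0), ← intervalIntegral.integral_of_le hab,
    intervalIntegral.integral_eq_sub_of_hasDerivAt (by rwa [uIcc_of_le hab]) hi]

/-- The (Hernquist) charge density. -/
noncomputable def hern (m c s : ℝ) : ℝ := m * c / (2 * π) / (s * (s + c) ^ 3)

lemma hern_nonneg {m c s : ℝ} (hm : 0 ≤ m) (hc : 0 < c) (hs : 0 ≤ s) : 0 ≤ hern m c s := by
  unfold hern; positivity

lemma tendsto_inv_pow (c : ℝ) (n : ℕ) (hn : n ≠ 0) :
    Tendsto (fun s : ℝ => ((s + c) ^ n)⁻¹) atTop (𝓝 0) := by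
  apply Tendsto.inv_tendsto_atTop
  exact (tendsto_pow_atTop hn).comp (tendsto_atTop_add_const_right _ c tendsto_id)

/-- The potential of the charge density is `m / (|x| + c)`. -/
theorem potential_hern {m c : ℝ} (hm : 0 ≤ m) (hc : 0 < c) (x : E3) (hx : x ≠ 0) :
    ∫⁻ y : E3, ENNReal.ofReal (hern m c ‖y‖) * ENNReal.ofReal (‖x - y‖⁻¹) =
      ENNReal.ofReal (m / (‖x‖ + c)) := by
  have hS : Measurable (fun s : ℝ => ENNReal.ofReal (hern m c s)) := by
    unfold hern; fun_prop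
  rw [newton hS x hx]
  set a := ‖x‖ with ha
  have ha0 : 0 < a := norm_pos_iff.2 hx
  have hsplit : (Ioi (0 : ℝ)) = Ioc 0 a ∪ Ioi a := (Ioc_union_Ioi_eq_Ioi ha0.le).symm
  rw [hsplit, lintegral_union measurableSet_Ioi (Ioc_disjoint_Ioi le_rfl)]
  have e1 : ∀ s ∈ Ioc (0 : ℝ) a, ENNReal.ofReal s * (ENNReal.ofReal (hern m c s) *
      ENNReal.ofReal ((a + s - |a - s|) / a)) =
      ENNReal.ofReal ((m / a / (2 * π)) * (2 * s * c / (s + c) ^ 3)) := by
    intro s hs
    have hs0 : 0 < s := hs.1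
    have h1 : |a - s| = a - s := abs_of_nonneg (by linarith [hs.2])
    rw [h1, ← ENNReal.ofReal_mul (hern_nonneg hm hc hs0.le), ← ENNReal.ofReal_mul hs0.le]
    congr 1
    unfold hern
    field_simp
    ring
  have e2 : ∀ s ∈ Ioi a, ENNReal.ofReal s * (ENNReal.ofReal (hern m c s) *
      ENNReal.ofReal ((a + s - |a - s|) / a)) =
      ENNReal.ofReal ((m * c / (2 * π)) * (2 / (s + c) ^ 3)) := by
    intro s hs
    have hs1 : a < s := hs
    have hs0 : 0 < s := ha0.trans hs1
    have h1 : |a - s| = s - a := by rw [abs_sub_comm]; exact abs_of_nonneg (by linarith)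
    rw [h1, ← ENNReal.ofReal_mul (hern_nonneg hm hc hs0.le), ← ENNReal.ofReal_mul hs0.le]
    congr 1
    unfold hern
    field_simp
    ring
  rw [setLIntegral_congr_fun measurableSet_Ioc e1, setLIntegral_congr_fun measurableSet_Ioi e2]
  have i1 : ∫⁻ s in Ioc (0 : ℝ) a, ENNReal.ofReal ((m / a / (2 * π)) * (2 * s * c / (s + c) ^ 3)) =
      ENNReal.ofReal ((m / a / (2 * π)) * (a ^ 2 / (a + c) ^ 2) - (m / a / (2 * π)) * (0 ^ 2 / (0 + c) ^ 2)) := by
    refine lintegral_Ioc_of_deriv (G := fun s => (m / a / (2 * π)) * (s ^ 2 / (s + c) ^ 2)) ha0.le ?_ ?_ ?_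
    · intro s hs
      have hs0 : 0 ≤ s := hs.1
      have hsc : 0 < s + c := by linarith
      have h1 : HasDerivAt (fun s : ℝ => s ^ 2) (2 * s) s := by simpa using hasDerivAt_pow 2 s
      have h2 : HasDerivAt (fun s : ℝ => (s + c) ^ 2) (2 * (s + c)) s := by
        simpa using ((hasDerivAt_id' s).add_const c).fun_pow 2
      have h3 := ((h1.div h2 (by positivity)).const_mul (m / a / (2 * π)))
      refine h3.congr_deriv ?_
      field_simp
      ring
    · apply ContinuousOn.mul continuousOn_const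
      apply ContinuousOn.div (by fun_prop) (by fun_prop)
      intro s hs
      have hs0 : 0 ≤ s := hs.1
      positivity
    · intro s hs
      have hs0 : 0 < s := hs.1
      positivity
  have i2 : ∫⁻ s in Ioi a, ENNReal.ofReal ((m * c / (2 * π)) * (2 / (s + c) ^ 3)) =
      ENNReal.ofReal (0 - (-(m * c / (2 * π)) * ((a + c) ^ 2)⁻¹)) := by
    refine lintegral_Ioi_of_deriv (G := fun s => -(m * c / (2 * π)) * ((s + c) ^ 2)⁻¹) ?_ ?_ ?_
    · intro s hs
      have hs0 : a ≤ s := hs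
      have hsc : 0 < s + c := by linarith
      have h2 : HasDerivAt (fun s : ℝ => (s + c) ^ 2) (2 * (s + c)) s := by
        simpa using ((hasDerivAt_id' s).add_const c).fun_pow 2
      have h3 := ((h2.inv (by positivity)).const_mul (-(m * c / (2 * π))))
      refine h3.congr_deriv ?_
      field_simp
    · intro s hs
      have hs0 : a < s := hs
      have hsc : 0 < s + c := by linarith
      positivity
    · have := (tendsto_inv_pow c 2 two_ne_zero).const_mul (-(m * c / (2 * π)))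
      simpa using this
  rw [i1, i2, ← ENNReal.ofReal_add, ← ENNReal.ofReal_mul (by positivity)]
  · congr 1
    field_simp
    ring
  · have : (0 : ℝ) ^ 2 / (0 + c) ^ 2 = 0 := by simp
    rw [this, mul_zero, sub_zero]
    positivity
  · have : 0 ≤ m * c / (2 * π) * ((a + c) ^ 2)⁻¹ := by positivity
    linarith

/-- The self-energy. -/
theorem II_hern {m c : ℝ} (hm : 0 ≤ m) (hc : 0 < c) :
    II (fun x => ENNReal.ofReal (hern m c ‖x‖)) (fun x => ENNReal.ofReal (hern m c ‖x‖)) =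
      ENNReal.ofReal (m ^ 2 / (3 * c)) := by
  have hne : ∀ᵐ x : E3, x ≠ 0 := by
    rw [ae_iff]; simp
  have hS : Measurable (fun s : ℝ => ENNReal.ofReal (hern m c s)) := by
    unfold hern; fun_prop
  have e1 : II (fun x => ENNReal.ofReal (hern m c ‖x‖)) (fun x => ENNReal.ofReal (hern m c ‖x‖)) =
      ∫⁻ x : E3, ENNReal.ofReal (hern m c ‖x‖) * ENNReal.ofReal (m / (‖x‖ + c)) := by
    unfold II
    apply lintegral_congr_ae
    filter_upwards [hne] with x hx
    have hmm : Measurable (fun y : E3 => ENNReal.ofReal (hern m c ‖y‖) * ENNReal.ofReal (‖x - y‖⁻¹)) := by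
      unfold hern; fun_prop
    rw [← potential_hern hm hc x hx, ← lintegral_const_mul _ hmm]
    congr 1; ext y; ring
  rw [e1, lintegral_radial (S := fun s => ENNReal.ofReal (hern m c s) * ENNReal.ofReal (m / (s + c)))
    (hS.mul (by fun_prop))]
  have e2 : ∀ s ∈ Ioi (0 : ℝ), ENNReal.ofReal (s ^ 2) * (ENNReal.ofReal (hern m c s) *
      ENNReal.ofReal (m / (s + c))) = ENNReal.ofReal (m ^ 2 * c / (2 * π) * (s / (s + c) ^ 4)) := by
    intro s hs
    have hs0 : (0 : ℝ) < s := hs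
    rw [← ENNReal.ofReal_mul (hern_nonneg hm hc hs0.le), ← ENNReal.ofReal_mul (by positivity)]
    congr 1
    unfold hern
    field_simp
  rw [setLIntegral_congr_fun measurableSet_Ioi e2]
  have i2 : ∫⁻ s in Ioi (0 : ℝ), ENNReal.ofReal (m ^ 2 * c / (2 * π) * (s / (s + c) ^ 4)) =
      ENNReal.ofReal (m ^ 2 * c / (2 * π) * (- (1 / 2) * 0 + c / 3 * 0) -
        (m ^ 2 * c / (2 * π) * (- (1 / 2) * ((0 + c) ^ 2)⁻¹ + c / 3 * ((0 + c) ^ 3)⁻¹))) := by
    refine lintegral_Ioi_of_deriv (G := fun s => m ^ 2 * c / (2 * π) *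
      (- (1 / 2) * ((s + c) ^ 2)⁻¹ + c / 3 * ((s + c) ^ 3)⁻¹)) ?_ ?_ ?_
    · intro s hs
      have hs0 : 0 ≤ s := hs
      have hsc : 0 < s + c := by linarith
      have h2 : HasDerivAt (fun s : ℝ => (s + c) ^ 2) (2 * (s + c)) s := by
        simpa using ((hasDerivAt_id' s).add_const c).fun_pow 2
      have h3 : HasDerivAt (fun s : ℝ => (s + c) ^ 3) (3 * (s + c) ^ 2) s := by
        simpa using ((hasDerivAt_id' s).add_const c).fun_pow 3
      have h4 := (((h2.inv (by positivity)).const_mul (-(1 / 2 : ℝ))).add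
        ((h3.inv (by positivity)).const_mul (c / 3))).const_mul (m ^ 2 * c / (2 * π))
      refine h4.congr_deriv ?_
      field_simp
      ring
    · intro s hs
      have hs0 : (0 : ℝ) < s := hs
      positivity
    · exact (((tendsto_inv_pow c 2 two_ne_zero).const_mul _).add
        ((tendsto_inv_pow c 3 three_ne_zero).const_mul _)).const_mul _
  rw [i2, ← ENNReal.ofReal_mul (by positivity)]
  congr 1
  field_simp
  ring

end Pool.Agent.Work.MP_8f8f86_mp
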