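import Pool.Agent.Work.MP_8f8f86_mp.Hern

open MeasureTheory Metric Set Filter Topology
open scoped ENNReal Real

namespace Pool.Agent.Work.MP_8f8f86_mp

variable {ρ : E3 → ℝ} {g : E3 → E3}

/-- The Coulomb energy of a density is a finite double integral. -/
lemma II_density (h : IsDensity ρ g) :
    0 ≤ coulomb ρ ∧ II (fun x => ENNReal.ofReal (ρ x)) (fun x => ENNReal.ofReal (ρ x)) =
      ENNReal.ofReal (2 * coulomb ρ) := by
  obtain ⟨hm, h0, hint, -, hw, hg⟩ := h
  have hw' : Pool.Agent.Work.MP_8b3296_mp.IsWeakGradient (fun x => √(ρ x)) g := hw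
  set G := ∫ x, ‖g x‖ ^ 2 with hG
  have hG0 : 0 ≤ G := integral_nonneg fun x => by positivity
  set lam := ∫ x, ρ x with hlam
  have hlam0 : 0 ≤ lam := integral_nonneg h0
  have hl : ∫⁻ x, ENNReal.ofReal (ρ x) = ENNReal.ofReal lam :=
    (ofReal_integral_eq_lintegral_ofReal hint (Filter.Eventually.of_forall h0)).symm
  -- the kernel
  set K : E3 × E3 → ℝ := fun q => ρ q.1 * ρ q.2 / ‖q.1 - q.2‖ with hK
  have hKm : Measurable K := by fun_prop
  have hK0 : ∀ q, 0 ≤ K q := fun q => div_nonneg (mul_nonneg (h0 _) (h0 _)) (by positivity)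
  have hprod : ∫⁻ q, ENNReal.ofReal (K q) ∂(volume.prod volume) =
      ∫⁻ x, ∫⁻ y, ENNReal.ofReal (K (x, y)) := lintegral_prod _ (by fun_prop)
  have hII : II (fun x => ENNReal.ofReal (ρ x)) (fun x => ENNReal.ofReal (ρ x)) =
      ∫⁻ x, ∫⁻ y, ENNReal.ofReal (K (x, y)) := by
    unfold II
    congr 1; ext x; congr 1; ext y
    rw [← ENNReal.ofReal_mul (h0 x), ← ENNReal.ofReal_mul (mul_nonneg (h0 x) (h0 y))]
    simp only [hK, div_eq_mul_inv]
  have hinner : ∀ x, ∫⁻ y, ENNReal.ofReal (K (x, y)) =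
      ENNReal.ofReal (ρ x) * ∫⁻ y, ENNReal.ofReal (ρ y * ‖y - x‖⁻¹) := by
    intro x
    rw [← lintegral_const_mul _ (by fun_prop)]
    congr 1; ext y
    rw [← ENNReal.ofReal_mul (h0 x)]
    congr 1
    simp only [hK]
    rw [norm_sub_rev]; ring
  have hfin : ∫⁻ q, ENNReal.ofReal (K q) ∂(volume.prod volume) < ⊤ := by
    rw [hprod]
    calc ∫⁻ x, ∫⁻ y, ENNReal.ofReal (K (x, y))
        ≤ ∫⁻ x, ENNReal.ofReal (ρ x) * (ENNReal.ofReal (128 * 1 * (G + lam)) +
            (ENNReal.ofReal ((1 ^ 5)⁻¹ * lam) + ENNReal.ofReal (1⁻¹ * lam))) := by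
          apply lintegral_mono
          intro x
          show ∫⁻ y, ENNReal.ofReal (K (x, y)) ≤ _
          rw [hinner x]
          refine mul_le_mul_right ((Pool.Agent.Work.MP_8b3296_mp.lintegral_coulomb_le hm h0 hint hw' hg x one_pos one_pos).trans ?_) _
          refine add_le_add le_rfl (add_le_add (ENNReal.ofReal_le_ofReal ?_) le_rfl)
          refine mul_le_mul_of_nonneg_left ?_ (by norm_num)
          exact setIntegral_le_integral hint (Filter.Eventually.of_forall h0)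
      _ < ⊤ := by
          rw [lintegral_mul_const _ (by fun_prop), hl]
          refine ENNReal.mul_lt_top ENNReal.ofReal_lt_top ?_
          exact ENNReal.add_lt_top.2 ⟨ENNReal.ofReal_lt_top,
            ENNReal.add_lt_top.2 ⟨ENNReal.ofReal_lt_top, ENNReal.ofReal_lt_top⟩⟩
  have hKint : Integrable K (volume.prod volume) := by
    refine ⟨by fun_prop, ?_⟩
    rw [hasFiniteIntegral_iff_ofReal (Filter.Eventually.of_forall hK0)]
    exact hfin
  have hcoul : coulomb ρ = (1 / 2) * ∫ q, K q ∂(volume.prod volume) := by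
    unfold coulomb
    rw [integral_prod _ hKint]
  have hpos : 0 ≤ ∫ q, K q ∂(volume.prod volume) := integral_nonneg hK0
  refine ⟨by rw [hcoul]; positivity, ?_⟩
  rw [hII, ← hprod, ← ofReal_integral_eq_lintegral_ofReal hKint (Filter.Eventually.of_forall hK0), hcoul]
  congr 1; ring

lemma integrable_mul_of_le {f : E3 → ℝ} (h : IsDensity ρ g) (hf : Measurable f) {C : ℝ}
    (hC : ∀ x, |f x| ≤ C) : Integrable (fun x => ρ x * f x) :=
  h.integrable.mul_bdd hf.aestronglyMeasurable (Eventually.of_forall fun x => hC x)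

/-- Lower bound for the repulsion. -/
lemma coulomb_ge (h : IsDensity ρ g) {m c : ℝ} (hm : 0 ≤ m) (hc : 0 < c) :
    Integrable (fun x => ρ x * (m / (‖x‖ + c))) ∧
    (∫ x, ρ x * (m / (‖x‖ + c))) - m ^ 2 / (6 * c) ≤ coulomb ρ := by
  have hne : ∀ᵐ x : E3, x ≠ 0 := by
    rw [ae_iff]; simp
  have hint : Integrable (fun x => ρ x * (m / (‖x‖ + c))) := by
    refine integrable_mul_of_le h (by fun_prop) (C := m / c) fun x => ?_
    rw [abs_of_nonneg (by positivity)]
    gcongr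
    linarith [norm_nonneg x]
  refine ⟨hint, ?_⟩
  obtain ⟨hc0, hII⟩ := II_density h
  have hρm : Measurable (fun x => ENNReal.ofReal (ρ x)) := h.measurable.ennreal_ofReal
  have hσm : Measurable (fun x : E3 => ENNReal.ofReal (hern m c ‖x‖)) := by
    unfold hern; fun_prop
  have key := coulomb_psd hρm hσm
  rw [hII, II_hern hm hc] at key
  have e1 : II (fun x => ENNReal.ofReal (ρ x)) (fun x => ENNReal.ofReal (hern m c ‖x‖)) =
      ENNReal.ofReal (∫ x, ρ x * (m / (‖x‖ + c))) := by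
    rw [ofReal_integral_eq_lintegral_ofReal hint (Eventually.of_forall fun x =>
      mul_nonneg (h.nonneg x) (by positivity))]
    unfold II
    apply lintegral_congr_ae
    filter_upwards [hne] with x hx
    have hmm : Measurable (fun y : E3 => ENNReal.ofReal (hern m c ‖y‖) * ENNReal.ofReal (‖x - y‖⁻¹)) := by
      unfold hern; fun_prop
    rw [ENNReal.ofReal_mul (h.nonneg x), ← potential_hern hm hc x hx, ← lintegral_const_mul _ hmm]
    congr 1; ext y; ring
  rw [e1] at key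
  have hI0 : 0 ≤ ∫ x, ρ x * (m / (‖x‖ + c)) := integral_nonneg fun x =>
    mul_nonneg (h.nonneg x) (by positivity)
  have h2 : 2 * ENNReal.ofReal (∫ x, ρ x * (m / (‖x‖ + c))) =
      ENNReal.ofReal (2 * ∫ x, ρ x * (m / (‖x‖ + c))) := by
    rw [ENNReal.ofReal_mul (by norm_num)]; simp
  rw [h2, ← ENNReal.ofReal_add (by positivity) (by positivity),
    ENNReal.ofReal_le_ofReal_iff (by positivity)] at key
  have e3 : m ^ 2 / (3 * c) = 2 * (m ^ 2 / (6 * c)) := by field_simp; ring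
  rw [e3] at key
  linarith

/-- `∫ (β/(|x|+d))⁵ dx = π β⁵/(3 d²)`. -/
lemma integral_v5 {β d : ℝ} (hβ : 0 ≤ β) (hd : 0 < d) :
    Integrable (fun x : E3 => (β / (‖x‖ + d)) ^ 5) ∧
    ∫ x : E3, (β / (‖x‖ + d)) ^ 5 = π * β ^ 5 / (3 * d ^ 2) := by
  have hnn : ∀ x : E3, 0 ≤ (β / (‖x‖ + d)) ^ 5 := fun x => by positivity
  have key : ∫⁻ x : E3, ENNReal.ofReal ((β / (‖x‖ + d)) ^ 5) =
      ENNReal.ofReal (π * β ^ 5 / (3 * d ^ 2)) := by
    rw [lintegral_radial (S := fun s => ENNReal.ofReal ((β / (s + d)) ^ 5)) (by fun_prop)]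
    have e2 : ∀ s ∈ Ioi (0 : ℝ), ENNReal.ofReal (s ^ 2) * ENNReal.ofReal ((β / (s + d)) ^ 5) =
        ENNReal.ofReal (β ^ 5 * (s ^ 2 / (s + d) ^ 5)) := by
      intro s hs
      have hs0 : (0 : ℝ) < s := hs
      rw [← ENNReal.ofReal_mul (by positivity)]
      congr 1
      field_simp
    rw [setLIntegral_congr_fun measurableSet_Ioi e2]
    have i2 : ∫⁻ s in Ioi (0 : ℝ), ENNReal.ofReal (β ^ 5 * (s ^ 2 / (s + d) ^ 5)) =
        ENNReal.ofReal (β ^ 5 * (-(1 / 2) * 0 + 2 * d / 3 * 0 + (-(d ^ 2 / 4)) * 0) -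
          (β ^ 5 * (-(1 / 2) * ((0 + d) ^ 2)⁻¹ + 2 * d / 3 * ((0 + d) ^ 3)⁻¹
            + (-(d ^ 2 / 4)) * ((0 + d) ^ 4)⁻¹))) := by
      refine lintegral_Ioi_of_deriv (G := fun s => β ^ 5 *
        (-(1 / 2) * ((s + d) ^ 2)⁻¹ + 2 * d / 3 * ((s + d) ^ 3)⁻¹
            + (-(d ^ 2 / 4)) * ((s + d) ^ 4)⁻¹)) ?_ ?_ ?_
      · intro s hs
        have hs0 : 0 ≤ s := hs
        have hsc : 0 < s + d := by linarith
        have h2 : HasDerivAt (fun s : ℝ => (s + d) ^ 2) (2 * (s + d)) s := by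
          simpa using ((hasDerivAt_id' s).add_const d).fun_pow 2
        have h3 : HasDerivAt (fun s : ℝ => (s + d) ^ 3) (3 * (s + d) ^ 2) s := by
          simpa using ((hasDerivAt_id' s).add_const d).fun_pow 3
        have h4 : HasDerivAt (fun s : ℝ => (s + d) ^ 4) (4 * (s + d) ^ 3) s := by
          simpa using ((hasDerivAt_id' s).add_const d).fun_pow 4
        have h5 := ((((h2.inv (by positivity)).const_mul (-(1 / 2 : ℝ))).add
          ((h3.inv (by positivity)).const_mul (2 * d / 3))).add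
          ((h4.inv (by positivity)).const_mul (-(d ^ 2 / 4)))).const_mul (β ^ 5)
        refine h5.congr_deriv ?_
        field_simp
        ring
      · intro s hs
        have hs0 : (0 : ℝ) < s := hs
        positivity
      · exact ((((tendsto_inv_pow d 2 two_ne_zero).const_mul _).add
          ((tendsto_inv_pow d 3 three_ne_zero).const_mul _)).add
          ((tendsto_inv_pow d 4 four_ne_zero).const_mul _)).const_mul _
    rw [i2, ← ENNReal.ofReal_mul (by positivity)]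
    congr 1
    field_simp
    ring
  have hint : Integrable (fun x : E3 => (β / (‖x‖ + d)) ^ 5) := by
    refine ⟨(by fun_prop : Measurable (fun x : E3 => (β / (‖x‖ + d)) ^ 5)).aestronglyMeasurable, ?_⟩
    rw [hasFiniteIntegral_iff_ofReal (Eventually.of_forall hnn), key]
    exact ENNReal.ofReal_lt_top
  refine ⟨hint, ?_⟩
  rw [← ofReal_integral_eq_lintegral_ofReal hint (Eventually.of_forall hnn)] at key
  exact (ENNReal.ofReal_eq_ofReal_iff (integral_nonneg hnn) (by positivity)).1 key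

lemma gamma_pos : 0 < γ := by unfold γ; positivity

lemma gamma_rpow : γ ^ (3 / 2 : ℝ) = 3 * π ^ 2 := by
  unfold γ
  rw [← Real.rpow_mul (by positivity)]
  norm_num

/-- Young's inequality. -/
lemma young {t v : ℝ} (ht : 0 ≤ t) (hv : 0 ≤ v) :
    t * v ^ 2 ≤ 3 / 5 * γ * t ^ (5 / 3 : ℝ) + 2 / 5 * (3 * π ^ 2)⁻¹ * v ^ 5 := by
  have hγ := gamma_pos
  have hconj : (5 / 3 : ℝ).HolderConjugate (5 / 2) := by
    rw [Real.holderConjugate_iff]; constructor <;> norm_num
  have h := Real.young_inequality_of_nonneg (a := γ ^ (3 / 5 : ℝ) * t) (b := γ ^ (-(3 / 5) : ℝ) * v ^ 2)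
    (by positivity) (by positivity) hconj
  have e1 : γ ^ (3 / 5 : ℝ) * t * (γ ^ (-(3 / 5) : ℝ) * v ^ 2) = t * v ^ 2 := by
    have : γ ^ (3 / 5 : ℝ) * γ ^ (-(3 / 5) : ℝ) = 1 := by
      rw [← Real.rpow_add hγ]; norm_num
    calc _ = (γ ^ (3 / 5 : ℝ) * γ ^ (-(3 / 5) : ℝ)) * (t * v ^ 2) := by ring
      _ = _ := by rw [this, one_mul]
  have e2 : (γ ^ (3 / 5 : ℝ) * t) ^ (5 / 3 : ℝ) = γ * t ^ (5 / 3 : ℝ) := by
    rw [Real.mul_rpow (by positivity) ht, ← Real.rpow_mul hγ.le]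
    norm_num
  have e3 : (γ ^ (-(3 / 5) : ℝ) * v ^ 2) ^ (5 / 2 : ℝ) = (3 * π ^ 2)⁻¹ * v ^ 5 := by
    rw [Real.mul_rpow (by positivity) (by positivity), ← Real.rpow_mul hγ.le, ← gamma_rpow,
      ← Real.rpow_neg hγ.le, ← Real.rpow_natCast v 2, ← Real.rpow_mul hv, ← Real.rpow_natCast v 5]
    norm_num
  rw [e1, e2, e3] at h
  refine h.trans (le_of_eq ?_)
  ring

/-- The pointwise inequality. -/
lemma pointwise {r : ℝ} (hr : 0 < r) :
    1 / r ≤ 0.1859 * (2 * (7 / 2) / (r * (1 + 7 / 2 * r) ^ 2)) + ((11 / 8) / (r + 2 / 3)) ^ 2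
      + 1 / 2 * ((5 / 2) / (r + 7 / 2)) := by
  rw [← sub_nonneg]
  have e : 0.1859 * (2 * (7 / 2) / (r * (1 + 7 / 2 * r) ^ 2)) + ((11 / 8) / (r + 2 / 3)) ^ 2
      + 1 / 2 * ((5 / 2) / (r + 7 / 2)) - 1 / r =
      (21091 / 45000 - 1566841 / 720000 * r + 280399 / 720000 * r ^ 2 + 51477119 / 2880000 * r ^ 3
        - 10661 / 768 * r ^ 4 + 49 / 16 * r ^ 5) /
        (r * (1 + 7 / 2 * r) ^ 2 * (r + 2 / 3) ^ 2 * (r + 7 / 2)) := by
    field_simp
    ring
  rw [e]
  apply div_nonneg _ (by positivity)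
  have h3 : 0 ≤ r ^ 3 := by positivity
  rcases le_total r 1 with h1 | h1
  · have h4 : 0 ≤ r ^ 3 * ((r - 34 / 15) ^ 2 - 8 / 5) := by
      apply mul_nonneg h3
      nlinarith
    have h5 : 0 ≤ r * (r - 3 / 10) ^ 2 := by positivity
    nlinarith [sq_nonneg (r - 3 / 10)]
  · have h4 : 0 ≤ r ^ 3 * (r - 34 / 15) ^ 2 := by positivity
    have h5 : 0 ≤ (r - 1) := by linarith
    have h6 : 0 ≤ r ^ 2 * (r - 1) := by positivity
    have h7 : 0 ≤ r * (r - 1) := by positivity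
    nlinarith

end Pool.Agent.Work.MP_8f8f86_mp
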