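import Pool.Agent.Work.MP_8f8f86_mp.Defs

open MeasureTheory Metric Set Filter Topology
open scoped ENNReal Real

namespace Pool.Agent.Work.MP_8f8f86_mp

section general

variable {X Ω : Type*} [MeasurableSpace X] [MeasurableSpace Ω]

lemma two_mul_le_add_sq_ennreal (a b : ℝ≥0∞) : 2 * (a * b) ≤ a * a + b * b := by
  rcases eq_or_ne a ⊤ with rfl | ha
  · simp
  rcases eq_or_ne b ⊤ with rfl | hb
  · simp
  lift a to NNReal using ha
  lift b to NNReal using hb
  norm_cast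
  have : (2 : ℝ) * (a * b) ≤ a * a + b * b := by nlinarith [sq_nonneg ((a : ℝ) - b)]
  exact_mod_cast this

/-- Tonelli for a superposition kernel. -/
lemma bilin_eq (μ : Measure X) [SFinite μ] (ν : Measure Ω) [SFinite ν] {κ : Ω → X → ℝ≥0∞}
    (hκ : Measurable (Function.uncurry κ)) {F G : X → ℝ≥0∞} (hF : Measurable F)
    (hG : Measurable G) :
    ∫⁻ x, ∫⁻ y, F x * G y * (∫⁻ ω, κ ω x * κ ω y ∂ν) ∂μ ∂μ =
      ∫⁻ ω, (∫⁻ x, F x * κ ω x ∂μ) * (∫⁻ y, G y * κ ω y ∂μ) ∂ν := by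
  have hκ1 : ∀ x, Measurable (fun ω => κ ω x) := fun x => hκ.comp (measurable_id.prodMk measurable_const)
  have hκ2 : ∀ ω, Measurable (κ ω) := fun ω => hκ.comp (measurable_const.prodMk measurable_id)
  have hmG : Measurable (fun ω => ∫⁻ y, G y * κ ω y ∂μ) := by
    apply Measurable.lintegral_prod_right' (f := fun q : Ω × X => G q.2 * κ q.1 q.2)
    exact (hG.comp measurable_snd).mul hκ
  calc ∫⁻ x, ∫⁻ y, F x * G y * (∫⁻ ω, κ ω x * κ ω y ∂ν) ∂μ ∂μ
      = ∫⁻ x, ∫⁻ ω, F x * κ ω x * (∫⁻ y, G y * κ ω y ∂μ) ∂ν ∂μ := by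
        congr 1; ext x
        calc ∫⁻ y, F x * G y * (∫⁻ ω, κ ω x * κ ω y ∂ν) ∂μ
            = ∫⁻ y, ∫⁻ ω, F x * κ ω x * (G y * κ ω y) ∂ν ∂μ := by
              congr 1; ext y
              rw [← lintegral_const_mul _ (show Measurable (fun ω => κ ω x * κ ω y) from (hκ1 x).mul (hκ1 y))]
              congr 1; ext ω; ring
          _ = ∫⁻ ω, ∫⁻ y, F x * κ ω x * (G y * κ ω y) ∂μ ∂ν := by
              apply lintegral_lintegral_swap
              apply Measurable.aemeasurable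
              have h1 : Measurable (fun q : X × Ω => κ q.2 q.1) := hκ.comp measurable_swap
              have h2 : Measurable (fun q : X × Ω => κ q.2 x) := (hκ1 x).comp measurable_snd
              exact (h2.const_mul _).mul ((hG.comp measurable_fst).mul h1)
          _ = _ := by
              congr 1; ext ω
              rw [lintegral_const_mul _ (show Measurable (fun y => G y * κ ω y) from hG.mul (hκ2 ω))]
    _ = ∫⁻ ω, ∫⁻ x, F x * κ ω x * (∫⁻ y, G y * κ ω y ∂μ) ∂μ ∂ν := by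
        apply lintegral_lintegral_swap
        apply Measurable.aemeasurable
        have h1 : Measurable (fun q : X × Ω => κ q.2 q.1) := hκ.comp measurable_swap
        exact ((hF.comp measurable_fst).mul h1).mul (hmG.comp measurable_snd)
    _ = _ := by
        congr 1; ext ω
        rw [lintegral_mul_const _ (show Measurable (fun x => F x * κ ω x) from hF.mul (hκ2 ω))]

lemma psd_general (μ : Measure X) [SFinite μ] (ν : Measure Ω) [SFinite ν] {κ : Ω → X → ℝ≥0∞}
    (hκ : Measurable (Function.uncurry κ)) {F G : X → ℝ≥0∞} (hF : Measurable F)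
    (hG : Measurable G) :
    2 * ∫⁻ x, ∫⁻ y, F x * G y * (∫⁻ ω, κ ω x * κ ω y ∂ν) ∂μ ∂μ ≤
      (∫⁻ x, ∫⁻ y, F x * F y * (∫⁻ ω, κ ω x * κ ω y ∂ν) ∂μ ∂μ) +
        ∫⁻ x, ∫⁻ y, G x * G y * (∫⁻ ω, κ ω x * κ ω y ∂ν) ∂μ ∂μ := by
  rw [bilin_eq μ ν hκ hF hG, bilin_eq μ ν hκ hF hF, bilin_eq μ ν hκ hG hG]
  have hm : ∀ {H : X → ℝ≥0∞}, Measurable H → Measurable (fun ω => ∫⁻ y, H y * κ ω y ∂μ) := by
    intro H hH
    apply Measurable.lintegral_prod_right' (f := fun q : Ω × X => H q.2 * κ q.1 q.2)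
    exact (hH.comp measurable_snd).mul hκ
  rw [← lintegral_const_mul _ (show Measurable (fun ω => (∫⁻ x, F x * κ ω x ∂μ) *
      ∫⁻ y, G y * κ ω y ∂μ) from (hm hF).mul (hm hG)),
    ← lintegral_add_left (show Measurable (fun ω => (∫⁻ x, F x * κ ω x ∂μ) *
      ∫⁻ y, F y * κ ω y ∂μ) from (hm hF).mul (hm hF))]
  exact lintegral_mono fun ω => two_mul_le_add_sq_ennreal _ _

end general

lemma integrable_gauss {b : ℝ} (hb : 0 < b) : Integrable (fun v : E3 => rexp (-b * ‖v‖ ^ 2)) := by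
  by_contra h
  have h1 := integral_undef h
  rw [GaussianFourier.integral_rexp_neg_mul_sq_norm hb] at h1
  have : (0 : ℝ) < (π / b) ^ ((Module.finrank ℝ E3 : ℝ) / 2) := by positivity
  linarith

lemma gauss_prod (x y : E3) {s : ℝ} (hs : 0 < s) :
    ∫⁻ z : E3, ENNReal.ofReal (rexp (-(2 * s ^ 2) * ‖x - z‖ ^ 2)) *
      ENNReal.ofReal (rexp (-(2 * s ^ 2) * ‖y - z‖ ^ 2)) =
    ENNReal.ofReal (rexp (-s ^ 2 * ‖x - y‖ ^ 2) * (π / (4 * s ^ 2)) ^ (3 / 2 : ℝ)) := by
  have hb : 0 < 4 * s ^ 2 := by positivity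
  set m : E3 := (1 / 2 : ℝ) • (x + y) with hm
  have hkey : ∀ z : E3, ‖x - z‖ ^ 2 + ‖y - z‖ ^ 2 = 2 * ‖z - m‖ ^ 2 + ‖x - y‖ ^ 2 / 2 := by
    intro z
    have h1 := parallelogram_law_with_norm ℝ (x - z) (y - z)
    have h2 : (x - z) + (y - z) = (-2 : ℝ) • (z - m) := by
      rw [hm, smul_sub, smul_smul]
      have : (-2 : ℝ) * (1 / 2) = -1 := by norm_num
      rw [this, neg_smul, neg_smul, two_smul, one_smul]; abel
    have h3 : (x - z) - (y - z) = x - y := by abel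
    rw [h2, h3, norm_smul] at h1
    norm_num at h1
    nlinarith
  have h1 : ∀ z : E3, ENNReal.ofReal (rexp (-(2 * s ^ 2) * ‖x - z‖ ^ 2)) *
      ENNReal.ofReal (rexp (-(2 * s ^ 2) * ‖y - z‖ ^ 2)) =
      ENNReal.ofReal (rexp (-s ^ 2 * ‖x - y‖ ^ 2) * rexp (-(4 * s ^ 2) * ‖z - m‖ ^ 2)) := by
    intro z
    rw [← ENNReal.ofReal_mul (by positivity), ← Real.exp_add, ← Real.exp_add]
    congr 2
    have := hkey z
    linear_combination (-(2 * s ^ 2)) * this
  simp only [h1]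
  have hint : Integrable (fun z : E3 => rexp (-(4 * s ^ 2) * ‖z - m‖ ^ 2)) :=
    (integrable_gauss hb).comp_sub_right m
  rw [← ofReal_integral_eq_lintegral_ofReal (hint.const_mul _)
    (Eventually.of_forall fun z => by positivity), integral_const_mul,
    integral_sub_right_eq_self (fun z : E3 => rexp (-(4 * s ^ 2) * ‖z‖ ^ 2)) m,
    GaussianFourier.integral_rexp_neg_mul_sq_norm hb]
  simp

/-- The amplitude. -/
noncomputable def cc (s : ℝ) : ℝ := √(2 / √π * ((π / (4 * s ^ 2)) ^ (3 / 2 : ℝ))⁻¹)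

/-- The superposition kernel. -/
noncomputable def kap (ω : ℝ × E3) (x : E3) : ℝ≥0∞ :=
  ENNReal.ofReal (cc ω.1) * ENNReal.ofReal (rexp (-(2 * ω.1 ^ 2) * ‖x - ω.2‖ ^ 2))

lemma measurable_kap : Measurable (Function.uncurry kap) := by
  unfold kap cc Function.uncurry
  fun_prop

/-- The measure on the parameter space. -/
noncomputable def nu : Measure (ℝ × E3) := (volume.restrict (Ioi (0 : ℝ))).prod volume

lemma lintegral_kap (x y : E3) (hxy : x ≠ y) :
    ∫⁻ ω, kap ω x * kap ω y ∂nu = ENNReal.ofReal (‖x - y‖⁻¹) := by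
  have hr : 0 < ‖x - y‖ := norm_pos_iff.2 (sub_ne_zero.2 hxy)
  have hm : Measurable (fun ω => kap ω x * kap ω y) := by
    unfold kap cc; fun_prop
  unfold nu
  rw [lintegral_prod _ hm.aemeasurable]
  have h1 : ∀ s ∈ Ioi (0 : ℝ), ∫⁻ z : E3, kap (s, z) x * kap (s, z) y =
      ENNReal.ofReal (2 / √π * rexp (-‖x - y‖ ^ 2 * s ^ 2)) := by
    intro s hs
    have hs0 : (0 : ℝ) < s := hs
    have h2 : ∀ z : E3, kap (s, z) x * kap (s, z) y = ENNReal.ofReal (cc s * cc s) *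
        (ENNReal.ofReal (rexp (-(2 * s ^ 2) * ‖x - z‖ ^ 2)) *
      ENNReal.ofReal (rexp (-(2 * s ^ 2) * ‖y - z‖ ^ 2))) := by
      intro z
      rw [ENNReal.ofReal_mul (by unfold cc; positivity)]
      unfold kap
      ring
    simp only [h2]
    rw [lintegral_const_mul _ (by fun_prop), gauss_prod x y hs0,
      ← ENNReal.ofReal_mul (by unfold cc; positivity)]
    congr 1
    unfold cc
    rw [Real.mul_self_sqrt (by positivity)]
    have : (0 : ℝ) < (π / (4 * s ^ 2)) ^ (3 / 2 : ℝ) := by positivity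
    field_simp
  rw [setLIntegral_congr_fun measurableSet_Ioi h1]
  have hb : 0 < ‖x - y‖ ^ 2 := by positivity
  have hint : IntegrableOn (fun s : ℝ => rexp (-‖x - y‖ ^ 2 * s ^ 2)) (Ioi 0) :=
    (integrable_exp_neg_mul_sq hb).integrableOn
  rw [← ofReal_integral_eq_lintegral_ofReal (hint.const_mul _)
    (Eventually.of_forall fun z => by positivity), integral_const_mul, integral_gaussian_Ioi]
  congr 1
  rw [Real.sqrt_div (by positivity), Real.sqrt_sq hr.le]
  have : (0 : ℝ) < √π := by positivity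
  field_simp

/-- The Coulomb form on nonnegative functions. -/
noncomputable def II (F G : E3 → ℝ≥0∞) : ℝ≥0∞ :=
  ∫⁻ x, ∫⁻ y, F x * G y * ENNReal.ofReal (‖x - y‖⁻¹)

/-- Positivity of the Coulomb kernel. -/
theorem coulomb_psd {F G : E3 → ℝ≥0∞} (hF : Measurable F) (hG : Measurable G) :
    2 * II F G ≤ II F F + II G G := by
  have h : ∀ H₁ H₂ : E3 → ℝ≥0∞, II H₁ H₂ =
      ∫⁻ x, ∫⁻ y, H₁ x * H₂ y * (∫⁻ ω, kap ω x * kap ω y ∂nu) := by
    intro H₁ H₂
    unfold II
    congr 1; ext x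
    apply lintegral_congr_ae
    have hne : ∀ᵐ y : E3, y ≠ x := by
      rw [ae_iff]; simp
    filter_upwards [hne] with y hy
    rw [lintegral_kap x y (Ne.symm hy)]
  rw [h F G, h F F, h G G]
  have : SFinite nu := by unfold nu; infer_instance
  exact psd_general volume nu measurable_kap hF hG

end Pool.Agent.Work.MP_8f8f86_mp
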