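import Pool.Agent.Work.MP_8f8f86_mp.Lower

open MeasureTheory Metric Set Filter Topology
open scoped ENNReal Real ContDiff

namespace Pool.Agent.Work.MP_8f8f86_mp

lemma integral_radial' (f : ℝ → ℝ) :
    ∫ x : E3, f ‖x‖ = 4 * π * ∫ s in Ioi (0 : ℝ), s ^ 2 * f s := by
  rw [integral_fun_norm_addHaar]
  have h1 : (volume : Measure E3).real (ball 0 1) = π * 4 / 3 := by
    rw [Measure.real, EuclideanSpace.volume_ball_fin_three]
    simp
    positivity
  rw [h1]
  simp only [finrank_euclideanSpace, Fintype.card_fin, nsmul_eq_mul, smul_eq_mul]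
  norm_num
  ring

lemma integral_pow_exp (n : ℕ) {b : ℝ} (hb : 0 < b) :
    ∫ s in Ioi (0 : ℝ), s ^ n * rexp (-b * s) = n.factorial / b ^ (n + 1) := by
  have h := Real.integral_rpow_mul_exp_neg_mul_Ioi (a := n + 1) (r := b) (by positivity) hb
  rw [Real.Gamma_nat_eq_factorial] at h
  have e : ∀ s ∈ Ioi (0 : ℝ), s ^ n * rexp (-b * s) = s ^ ((n : ℝ) + 1 - 1) * rexp (-(b * s)) := by
    intro s _
    rw [add_sub_cancel_right, Real.rpow_natCast, neg_mul]
  rw [setIntegral_congr_fun measurableSet_Ioi e, h]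
  rw [← Nat.cast_succ, Real.rpow_natCast, Nat.succ_eq_add_one, one_div, inv_pow]
  ring

lemma integrableOn_pow_exp (n : ℕ) {b : ℝ} (hb : 0 < b) :
    IntegrableOn (fun s : ℝ => s ^ n * rexp (-b * s)) (Ioi 0) := by
  by_contra h
  have h1 := integral_undef h
  rw [integral_pow_exp n hb] at h1
  have : (0 : ℝ) < n.factorial / b ^ (n + 1) := by positivity
  linarith

lemma integral_exp_norm {b : ℝ} (hb : 0 < b) :
    Integrable (fun x : E3 => rexp (-b * ‖x‖)) ∧ ∫ x : E3, rexp (-b * ‖x‖) = 8 * π / b ^ 3 := by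
  constructor
  · rw [integrable_fun_norm_addHaar (volume : Measure E3) (f := fun s => rexp (-b * s))]
    simp only [finrank_euclideanSpace, Fintype.card_fin, smul_eq_mul]
    exact integrableOn_pow_exp 2 hb
  · rw [integral_radial' (fun s => rexp (-b * s)), integral_pow_exp 2 hb]
    norm_num [Nat.factorial]
    ring

lemma integral_exp_norm_div {b : ℝ} (hb : 0 < b) :
    ∫ x : E3, rexp (-b * ‖x‖) / ‖x‖ = 4 * π / b ^ 2 := by
  rw [integral_radial' (fun s => rexp (-b * s) / s)]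
  have e : ∀ s ∈ Ioi (0 : ℝ), s ^ 2 * (rexp (-b * s) / s) = s ^ 1 * rexp (-b * s) := by
    intro s hs
    have hs0 : (0 : ℝ) < s := hs
    field_simp
  rw [setIntegral_congr_fun measurableSet_Ioi e, integral_pow_exp 1 hb]
  norm_num [Nat.factorial]
  ring

/-- The regularised exponential. -/
noncomputable def fe (κ a ε : ℝ) (x : E3) : ℝ := κ * rexp (-a * √(‖x‖ ^ 2 + ε ^ 2))

/-- Its gradient. -/
noncomputable def ge (κ a ε : ℝ) (x : E3) : E3 :=
  (-a * fe κ a ε x * (√(‖x‖ ^ 2 + ε ^ 2))⁻¹) • x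

lemma hasFDerivAt_fe (κ a : ℝ) {ε : ℝ} (hε : ε ≠ 0) (x : E3) :
    HasFDerivAt (fe κ a ε) (innerSL ℝ (ge κ a ε x)) x := by
  have hpos : 0 < ‖x‖ ^ 2 + ε ^ 2 := by positivity
  have h1 : HasFDerivAt (fun x : E3 => ‖x‖ ^ 2 + ε ^ 2) ((2 : ℕ) • innerSL ℝ x) x := by
    have := ((hasFDerivAt_id x).norm_sq).add_const (ε ^ 2)
    simpa using this
  have h2 := ((h1.sqrt hpos.ne').const_mul (-a)).exp.const_mul κ
  refine h2.congr_fderiv ?_
  ext v
  have hs : √(‖x‖ ^ 2 + ε ^ 2) ≠ 0 := (Real.sqrt_pos.2 hpos).ne'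
  simp only [ge, fe, map_smul, smul_apply, smul_eq_mul, innerSL_apply_apply,
    nsmul_eq_mul, Nat.cast_ofNat]
  field_simp

lemma continuous_fe (κ a ε : ℝ) : Continuous (fe κ a ε) := by unfold fe; fun_prop

lemma continuous_ge (κ a : ℝ) {ε : ℝ} (hε : ε ≠ 0) : Continuous (ge κ a ε) := by
  unfold ge
  refine Continuous.smul (Continuous.mul (continuous_const.mul (continuous_fe κ a ε)) ?_) continuous_id
  refine Continuous.inv₀ (by fun_prop) ?_
  intro x
  have hpos : 0 < ‖x‖ ^ 2 + ε ^ 2 := by positivity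
  exact (Real.sqrt_pos.2 hpos).ne'

lemma fe_le {κ a : ℝ} (hκ : 0 ≤ κ) (ha : 0 ≤ a) (ε : ℝ) (x : E3) : |fe κ a ε x| ≤ κ := by
  unfold fe
  rw [abs_of_nonneg (by positivity)]
  have : rexp (-a * √(‖x‖ ^ 2 + ε ^ 2)) ≤ 1 := by
    apply Real.exp_le_one_iff.2
    have := mul_nonneg ha (Real.sqrt_nonneg (‖x‖ ^ 2 + ε ^ 2))
    linarith
  nlinarith

lemma norm_ge_le {κ a : ℝ} (hκ : 0 ≤ κ) (ha : 0 ≤ a) (ε : ℝ) (x : E3) : ‖ge κ a ε x‖ ≤ a * κ := by
  unfold ge
  rw [norm_smul, norm_mul, norm_mul, Real.norm_eq_abs, Real.norm_eq_abs, Real.norm_eq_abs,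
    abs_neg, abs_of_nonneg ha]
  have h1 := fe_le hκ ha ε x
  have h2 : |(√(‖x‖ ^ 2 + ε ^ 2))⁻¹| * ‖x‖ ≤ 1 := by
    rw [abs_of_nonneg (by positivity)]
    have h3 : ‖x‖ ≤ √(‖x‖ ^ 2 + ε ^ 2) := by
      apply Real.le_sqrt_of_sq_le
      nlinarith [sq_nonneg ε]
    rcases eq_or_lt_of_le (Real.sqrt_nonneg (‖x‖ ^ 2 + ε ^ 2)) with h4 | h4
    · rw [← h4]; simp
    · rw [inv_mul_le_iff₀ h4]; linarith
  calc a * |fe κ a ε x| * |(√(‖x‖ ^ 2 + ε ^ 2))⁻¹| * ‖x‖
      = (a * |fe κ a ε x|) * (|(√(‖x‖ ^ 2 + ε ^ 2))⁻¹| * ‖x‖) := by ring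
    _ ≤ (a * κ) * 1 := by
        apply mul_le_mul _ h2 (by positivity) (by positivity)
        gcongr
    _ = _ := by ring

/-- The exponential has the expected weak gradient. -/
lemma isWeakGradient_exp {κ a : ℝ} (hκ : 0 ≤ κ) (ha : 0 ≤ a) :
    IsWeakGradient (fe κ a 0) (ge κ a 0) := by
  have hgm : Measurable (ge κ a 0) := by unfold ge fe; fun_prop
  have hgloc : LocallyIntegrable (ge κ a 0) := by
    have h1 : LocallyIntegrable (fun _ : E3 => a * κ) := locallyIntegrable_const _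
    exact h1.mono hgm.aestronglyMeasurable (Eventually.of_forall fun x => by
      rw [Real.norm_eq_abs, abs_of_nonneg (by positivity)]
      exact norm_ge_le hκ ha 0 x)
  refine ⟨(continuous_fe κ a 0).locallyIntegrable, hgloc, ?_⟩
  intro φ hφ hc v
  have hdφ : Continuous (fun x => fderiv ℝ φ x v) :=
    (hφ.continuous_fderiv (by simp)).clm_apply continuous_const
  have hcdφ : HasCompactSupport (fun x => fderiv ℝ φ x v) :=
    (hc.fderiv (𝕜 := ℝ)).comp_left (g := fun L : E3 →L[ℝ] ℝ => L v) (by simp)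
  have hε : ∀ ε : ℝ, ε ≠ 0 → ∫ x, fe κ a ε x * fderiv ℝ φ x v = - ∫ x, inner ℝ (ge κ a ε x) v * φ x := by
    intro ε hε
    have hfd : ∀ x, fderiv ℝ (fe κ a ε) x v = inner ℝ (ge κ a ε x) v := by
      intro x
      rw [(hasFDerivAt_fe κ a hε x).fderiv]
      rfl
    have hcg : Continuous (fun x => inner ℝ (ge κ a ε x) v) := (continuous_ge κ a hε).inner continuous_const
    simp only [← hfd]
    apply integral_mul_fderiv_eq_neg_fderiv_mul_of_integrable
    · simp only [hfd]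
      exact (hcg.mul hφ.continuous).integrable_of_hasCompactSupport hc.mul_left
    · exact ((continuous_fe κ a ε).mul hdφ).integrable_of_hasCompactSupport hcdφ.mul_left
    · exact ((continuous_fe κ a ε).mul hφ.continuous).integrable_of_hasCompactSupport hc.mul_left
    · exact fun x _ => (hasFDerivAt_fe κ a hε x).differentiableAt
    · exact fun x _ => hφ.contDiffAt.differentiableAt (by simp)
  have hlimf : ∀ x : E3, Tendsto (fun ε : ℝ => fe κ a ε x) (𝓝[>] 0) (𝓝 (fe κ a 0 x)) := by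
    intro x
    have : Continuous (fun ε : ℝ => fe κ a ε x) := by unfold fe; fun_prop
    exact (this.tendsto 0).mono_left nhdsWithin_le_nhds
  have h1 : Tendsto (fun ε : ℝ => ∫ x, fe κ a ε x * fderiv ℝ φ x v) (𝓝[>] 0)
      (𝓝 (∫ x, fe κ a 0 x * fderiv ℝ φ x v)) := by
    apply tendsto_integral_filter_of_dominated_convergence (fun x => κ * |fderiv ℝ φ x v|)
    · exact Eventually.of_forall fun ε => ((continuous_fe κ a ε).mul hdφ).aestronglyMeasurable
    · refine Eventually.of_forall fun ε => Eventually.of_forall fun x => ?_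
      rw [Real.norm_eq_abs, abs_mul]
      exact mul_le_mul_of_nonneg_right (fe_le hκ ha ε x) (abs_nonneg _)
    · exact ((hdφ.integrable_of_hasCompactSupport hcdφ).abs).const_mul κ
    · exact Eventually.of_forall fun x => (hlimf x).mul_const _
  have h2 : Tendsto (fun ε : ℝ => - ∫ x, inner ℝ (ge κ a ε x) v * φ x) (𝓝[>] 0)
      (𝓝 (- ∫ x, inner ℝ (ge κ a 0 x) v * φ x)) := by
    apply Tendsto.neg
    apply tendsto_integral_filter_of_dominated_convergence (fun x => a * κ * ‖v‖ * |φ x|)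
    · filter_upwards [self_mem_nhdsWithin] with ε hε0
      have hε1 : (ε : ℝ) ≠ 0 := ne_of_gt hε0
      exact (((continuous_ge κ a hε1).inner continuous_const).mul hφ.continuous).aestronglyMeasurable
    · refine Eventually.of_forall fun ε => Eventually.of_forall fun x => ?_
      rw [Real.norm_eq_abs, abs_mul]
      refine mul_le_mul_of_nonneg_right ?_ (abs_nonneg _)
      refine (abs_real_inner_le_norm _ _).trans ?_
      exact mul_le_mul_of_nonneg_right (norm_ge_le hκ ha ε x) (norm_nonneg _)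
    · exact ((hφ.continuous.integrable_of_hasCompactSupport hc).abs).const_mul _
    · have hne : ∀ᵐ x : E3, x ≠ 0 := by
        rw [ae_iff]; simp
      filter_upwards [hne] with x hx
      have hr0 : 0 < ‖x‖ := norm_pos_iff.2 hx
      refine Tendsto.mul_const _ ?_
      refine Tendsto.inner ?_ tendsto_const_nhds
      unfold ge
      refine Tendsto.smul_const ?_ x
      refine ((hlimf x).const_mul (-a)).mul ?_
      have : ContinuousAt (fun ε : ℝ => (√(‖x‖ ^ 2 + ε ^ 2))⁻¹) 0 := by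
        apply ContinuousAt.inv₀ (by fun_prop)
        have : 0 < ‖x‖ ^ 2 + (0 : ℝ) ^ 2 := by positivity
        exact (Real.sqrt_pos.2 this).ne'
      exact this.tendsto.mono_left nhdsWithin_le_nhds
  refine tendsto_nhds_unique h1 (h2.congr' ?_)
  filter_upwards [self_mem_nhdsWithin] with ε hε0
  exact (hε ε (ne_of_gt hε0)).symm

/-- The exponential trial density. -/
theorem trial {κ a : ℝ} (hκ : 0 ≤ κ) (ha : 0 < a) :
    IsDensity (fun x => κ ^ 2 * rexp (-(2 * a) * ‖x‖)) (ge κ a 0) ∧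
    ∫ x : E3, κ ^ 2 * rexp (-(2 * a) * ‖x‖) = κ ^ 2 * (π / a ^ 3) ∧
    ∫ x, ‖ge κ a 0 x‖ ^ 2 = a ^ 2 * (κ ^ 2 * (π / a ^ 3)) ∧
    ∫ x : E3, (κ ^ 2 * rexp (-(2 * a) * ‖x‖)) ^ (5 / 3 : ℝ) =
      (κ ^ 2) ^ (5 / 3 : ℝ) * (27 / 125 * (π / a ^ 3)) ∧
    ∫ x : E3, 1 / ‖x‖ * (κ ^ 2 * rexp (-(2 * a) * ‖x‖)) = κ ^ 2 * (π / a ^ 2) := by
  have hne : ∀ᵐ x : E3, x ≠ 0 := by
    rw [ae_iff]; simp
  obtain ⟨i1, i2⟩ := integral_exp_norm (b := 2 * a) (by positivity)
  obtain ⟨j1, j2⟩ := integral_exp_norm (b := 10 / 3 * a) (by positivity)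
  have hsqrt : (fun x : E3 => √(κ ^ 2 * rexp (-(2 * a) * ‖x‖))) = fe κ a 0 := by
    funext x
    unfold fe
    rw [Real.sqrt_mul (sq_nonneg _), Real.sqrt_sq hκ]
    congr 1
    rw [zero_pow two_ne_zero, add_zero, Real.sqrt_sq (norm_nonneg _), Real.sqrt_eq_iff_mul_self_eq
      (by positivity) (by positivity), ← Real.exp_add]
    congr 1; ring
  have hpow : ∀ x : E3, (κ ^ 2 * rexp (-(2 * a) * ‖x‖)) ^ (5 / 3 : ℝ) =
      (κ ^ 2) ^ (5 / 3 : ℝ) * rexp (-(10 / 3 * a) * ‖x‖) := by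
    intro x
    rw [Real.mul_rpow (sq_nonneg _) (Real.exp_pos _).le, ← Real.exp_mul]
    congr 2; ring
  have hgsq : ∀ x : E3, x ≠ 0 → ‖ge κ a 0 x‖ ^ 2 = a ^ 2 * (κ ^ 2 * rexp (-(2 * a) * ‖x‖)) := by
    intro x hx
    have hr0 : 0 < ‖x‖ := norm_pos_iff.2 hx
    unfold ge
    rw [norm_smul, mul_pow, Real.norm_eq_abs, sq_abs]
    have h1 : fe κ a 0 x ^ 2 = κ ^ 2 * rexp (-(2 * a) * ‖x‖) := by
      rw [← hsqrt, Real.sq_sqrt (by positivity)]
    rw [zero_pow two_ne_zero, add_zero, Real.sqrt_sq (norm_nonneg _), mul_pow, mul_pow, h1]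
    field_simp
  have hgm : Measurable (ge κ a 0) := by unfold ge fe; fun_prop
  have hgint : Integrable (fun x => ‖ge κ a 0 x‖ ^ 2) := by
    refine ((i1.const_mul (κ ^ 2)).const_mul (a ^ 2)).congr ?_
    filter_upwards [hne] with x hx
    exact (hgsq x hx).symm
  refine ⟨⟨by fun_prop, fun x => by positivity, i1.const_mul _, ?_, ?_, ?_⟩, ?_, ?_, ?_, ?_⟩
  · simp only [hpow]
    exact j1.const_mul _
  · rw [hsqrt]; exact isWeakGradient_exp hκ ha.le
  · rw [memLp_two_iff_integrable_sq_norm hgm.aestronglyMeasurable]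
    exact hgint
  · rw [integral_const_mul, i2]; field_simp; ring
  · rw [integral_congr_ae (g := fun x => a ^ 2 * (κ ^ 2 * rexp (-(2 * a) * ‖x‖)))
      (by filter_upwards [hne] with x hx; exact hgsq x hx),
      integral_const_mul, integral_const_mul, i2]
    field_simp; ring
  · simp only [hpow]
    rw [integral_const_mul, j2]
    field_simp; ring
  · have : ∀ x : E3, 1 / ‖x‖ * (κ ^ 2 * rexp (-(2 * a) * ‖x‖)) = κ ^ 2 * (rexp (-(2 * a) * ‖x‖) / ‖x‖) := by
      intro x; ring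
    simp only [this]
    rw [integral_const_mul, integral_exp_norm_div (by positivity)]
    field_simp; ring

end Pool.Agent.Work.MP_8f8f86_mp
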